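import Pool.Agent.Lib.H78C.Defs

/-!
# A1: basic facts on `PD` (Mathlib: `ShortComplex.ShortExact.hasProjectiveDimensionLT_X₁`, `_X₃`).
-/

set_option autoImplicit false
open CategoryTheory IsLocalRing TensorProduct
open Pool.Agent.Lib.Helper92 Pool.Agent.Lib.H44V

namespace Pool.Agent.Lib.H78C
universe u

theorem A1_shift {R : Type u} [CommRing R] {F M : Type u} [AddCommGroup F] [Module R F]
    [AddCommGroup M] [Module R M] [Module.Projective R F] (f : F →ₗ[R] M)
    (hf : Function.Surjective f) (n : ℕ) :
    PD R M (n + 2) ↔ PD R (LinearMap.ker f) (n + 1) := by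
  have : Projective (ModuleCat.of R F) := (IsProjective.iff_projective F).1 inferInstance
  exact (LinearMap.shortExact_shortComplexKer hf).hasProjectiveDimensionLT_X₃_iff n this

theorem A1_zero {R : Type u} [CommRing R] {M : Type u} [AddCommGroup M] [Module R M] :
    PD R M 0 ↔ Subsingleton M := by
  rw [PD, hasProjectiveDimensionLT_zero_iff_isZero]
  exact ModuleCat.isZero_iff_subsingleton

theorem A1_one {R : Type u} [CommRing R] {M : Type u} [AddCommGroup M] [Module R M] :
    PD R M 1 ↔ Module.Projective R M := by
  rw [PD, ← projective_iff_hasProjectiveDimensionLT_one]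
  exact (IsProjective.iff_projective M).symm

theorem A1_equiv {R : Type u} [CommRing R] {M N : Type u} [AddCommGroup M] [Module R M]
    [AddCommGroup N] [Module R N] (e : M ≃ₗ[R] N) (n : ℕ) (h : PD R M n) : PD R N n := by
  have : HasProjectiveDimensionLT (ModuleCat.of R M) n := h
  exact hasProjectiveDimensionLT_of_iso e.toModuleIso n

end Pool.Agent.Lib.H78C
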