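import Pool.Agent.Lib.H78C.Defs

/-!
# A2: `S ⊗ A/I ≃ S/IS`.
-/

set_option autoImplicit false
open CategoryTheory IsLocalRing TensorProduct
open Pool.Agent.Lib.Helper92 Pool.Agent.Lib.H44V

namespace Pool.Agent.Lib.H78C
universe u

theorem A2_quot {A S : Type u} [CommRing A] [CommRing S] [Algebra A S] (I : Ideal A) :
    Nonempty (S ⊗[A] (A ⧸ I) ≃ₗ[S] (S ⧸ I.map (algebraMap A S))) := by
  exact ⟨(Algebra.TensorProduct.quotIdealMapEquivTensorQuot S I).symm.toLinearEquiv⟩

theorem A2_pd {A S : Type u} [CommRing A] [CommRing S] [Algebra A S] (I : Ideal A) (n : ℕ) :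
    PD S (S ⊗[A] (A ⧸ I)) n ↔ PD S (S ⧸ I.map (algebraMap A S)) n := by
  obtain ⟨e⟩ := A2_quot (S := S) I
  constructor
  · intro h
    exact hasProjectiveDimensionLT_of_iso e.toModuleIso n
  · intro h
    exact hasProjectiveDimensionLT_of_iso e.toModuleIso.symm n

/-- regularity is preserved by flat base change. -/
theorem A2_reg {A S : Type u} [CommRing A] [CommRing S] [Algebra A S] [Module.Flat A S]
    (I : Ideal A) (x : A) (h : IsSMulRegular (A ⧸ I) x) :
    IsSMulRegular (S ⧸ I.map (algebraMap A S)) (algebraMap A S x) := by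
  obtain ⟨e⟩ := A2_quot (S := S) I
  have h1 : IsSMulRegular (S ⊗[A] (A ⧸ I)) (algebraMap A S x) :=
    h.of_flat_of_isBaseChange (TensorProduct.isBaseChange A (A ⧸ I) S)
  exact (e.isSMulRegular_congr _).mp h1

theorem A2_reg' {A S : Type u} [CommRing A] [CommRing S] [Algebra A S] [Module.Flat A S]
    (x : A) (h : IsSMulRegular A x) : IsSMulRegular S (algebraMap A S x) := 
  h.of_flat_of_isBaseChange (IsBaseChange.linearMap A S)

end Pool.Agent.Lib.H78C
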