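import Pool.Agent.Lib.H78C.Defs
import Pool.Agent.Lib.H78C.A2

/-!
# CF: flat ascent of complete intersections.
-/

set_option autoImplicit false
open CategoryTheory IsLocalRing TensorProduct
open Pool.Agent.Lib.Helper92 Pool.Agent.Lib.H44V

namespace Pool.Agent.Lib.H78C
universe u

theorem CF_Jx {L S : Type u} [CommRing L] [CommRing S] [Algebra L S] (x : ℕ → L) (j : ℕ) :
    (Jx x j).map (algebraMap L S) = Jx (fun i => algebraMap L S (x i)) j := by
  induction j with
  | zero => simp [Jx]
  | succ j ih =>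
    simp only [Jx]
    rw [Ideal.map_sup, ih, Ideal.map_span, Set.image_singleton]

theorem CF_flat {L S : Type u} [CommRing L] [CommRing S] [Algebra L S] [Module.Flat L S]
    (I : Ideal L) (r : ℕ) (h : CI I r) : CI (I.map (algebraMap L S)) r := by
  obtain ⟨x, hreg, hI⟩ := h
  refine ⟨fun i => algebraMap L S (x i), fun j hj => ?_, ?_⟩
  · rw [← CF_Jx]
    exact A2_reg _ _ (hreg j hj)
  · rw [← CF_Jx, hI]

end Pool.Agent.Lib.H78C
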