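import Pool.Agent.Lib.H44V.Defs
import Pool.Agent.Lib.Helper92.Convert

/-!
Definitions for H78C (MP_fa772a_ag): reduction of the geometric characteristic zero case of
Vasconcelos' conjecture to characteristic `p`.
-/

set_option autoImplicit false
open CategoryTheory IsLocalRing
open Pool.Agent.Lib.Helper92 Pool.Agent.Lib.H44V

namespace Pool.Agent.Lib.H78C
universe u

/-- `pd_R M < n`. -/
abbrev PD (R : Type u) [CommRing R] (M : Type u) [AddCommGroup M] [Module R M] (n : ℕ) : Prop :=
  HasProjectiveDimensionLT (ModuleCat.of R M) n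

/-- the normal module of `I` is free of rank `r`. -/
def NF {S : Type u} [CommRing S] (I : Ideal S) (r : ℕ) : Prop :=
  ∃ h : Fin r → (I →ₗ[S] (S ⧸ I)), NBasis I h

/-- every homomorphism `I → S/(I + xS)` lifts to a homomorphism `I → S/I`. -/
def Lft {S : Type u} [CommRing S] (I : Ideal S) (x : S) : Prop :=
  ∀ φ : I →ₗ[S] (S ⧸ (I ⊔ Ideal.span {x})), ∃ ψ : I →ₗ[S] (S ⧸ I),
    φ = (Submodule.factor (show I ≤ I ⊔ Ideal.span {x} from le_sup_left)).comp ψ

end Pool.Agent.Lib.H78C
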