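import Pool.Agent.Lib.H78C.Defs

/-!
# EF: an algebra essentially of finite type over a field is flat over a finitely generated ring
containing generators of a given ideal.
`C = EssFiniteType.subalgebra k S` is of finite type, `C ≅ k ⊗ A` with
`A = P.ModelOfHasCoeffs B` (Mathlib.RingTheory.Extension.Presentation.Core), `B` a finitely generated
subring of `k` containing the coefficients of a presentation of `C` and of polynomials representing
generators of `I`; `k` is flat over `Frac B` and `Frac B` over `B`.
-/

set_option autoImplicit false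
open CategoryTheory IsLocalRing TensorProduct
open Pool.Agent.Lib.Helper92 Pool.Agent.Lib.H44V

namespace Pool.Agent.Lib.H78C
universe u

/-- a field is flat over its subrings -/
private theorem ef_flat {k : Type u} [Field k] (B : Subalgebra ℤ k) : Module.Flat B k := by
  have : FaithfulSMul B k := inferInstance
  letI : Algebra (FractionRing B) k := FractionRing.liftAlgebra B k
  haveI : IsScalarTower B (FractionRing B) k := FractionRing.isScalarTower_liftAlgebra B k
  haveI : Module.Flat B (FractionRing B) := IsLocalization.flat _ (nonZeroDivisors B)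
  exact Module.Flat.trans B (FractionRing B) k

private theorem ef_base {k B A C : Type u} [CommRing k] [CommRing B] [CommRing A] [CommRing C] [Algebra B k] [Algebra B A]
    [Algebra k C] [Module.Flat B k] (e : k ⊗[B] A ≃ₐ[k] C) :
    ∃ f : A →+* C, (∀ a, f a = e (1 ⊗ₜ a)) ∧ @Module.Flat A C _ _ f.toAlgebra.toModule := by
  let g : A ⊗[B] k →+* C := (e : k ⊗[B] A →+* C).comp (Algebra.TensorProduct.comm B A k : A ⊗[B] k →+* k ⊗[B] A)
  have hg : Function.Bijective g := e.bijective.comp (Algebra.TensorProduct.comm B A k).bijective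
  let f : A →+* C := g.comp (algebraMap A (A ⊗[B] k))
  refine ⟨f, fun a => ?_, ?_⟩
  · change e (Algebra.TensorProduct.comm B A k (a ⊗ₜ 1)) = _
    rw [Algebra.TensorProduct.comm_tmul]
  · letI : Algebra A C := f.toAlgebra
    let e2 : (A ⊗[B] k) →ₐ[A] C := { g with commutes' := fun _ => rfl }
    exact Module.Flat.of_linearEquiv (LinearEquiv.ofBijective e2.toLinearMap hg).symm

private theorem ef_ft {k C : Type u} [Field k] [CommRing C] [Algebra k C] [Algebra.FiniteType k C] (I : Ideal C) :
    ∃ (A : Type u) (_ : CommRing A) (_ : Algebra A C), Algebra.FiniteType ℤ A ∧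
      Module.Flat A C ∧ ∃ I₀ : Ideal A, I₀.map (algebraMap A C) = I := by
  classical
  haveI : Algebra.FinitePresentation k C := Algebra.FinitePresentation.of_finiteType.1 inferInstance
  haveI : IsNoetherianRing C := Algebra.FiniteType.isNoetherianRing k C
  obtain ⟨s, hs⟩ : I.FG := IsNoetherian.noetherian I
  let P := Algebra.Presentation.ofFinitePresentation k C
  let T : Set k := P.coeffs ∪ ⋃ c ∈ s, ((P.σ c).coeffs : Set k)
  have hT : T.Finite := P.finite_coeffs.union (s.finite_toSet.biUnion fun c _ => Finset.finite_toSet _)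
  let B : Subalgebra ℤ k := Algebra.adjoin ℤ T
  haveI hBft : Algebra.FiniteType ℤ B := .adjoin_of_finite hT
  haveI hB : P.HasCoeffs B := ⟨fun x hx => ⟨⟨x, Algebra.subset_adjoin (Or.inl hx)⟩, rfl⟩⟩
  haveI hflat : Module.Flat B k := ef_flat B
  have hfp : Algebra.FinitePresentation B (P.ModelOfHasCoeffs B) := inferInstance
  obtain ⟨f, hf, hfl⟩ := ef_base (P.tensorModelOfHasCoeffsEquiv B)
  have hft : Algebra.FiniteType B (P.ModelOfHasCoeffs B) := inferInstance
  refine ⟨P.ModelOfHasCoeffs B, inferInstance, f.toAlgebra, Algebra.FiniteType.trans hBft hft, hfl, I.comap f, ?_⟩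
  change (I.comap f).map f = I
  refine le_antisymm Ideal.map_comap_le ?_
  conv_lhs => rw [← hs]
  rw [Ideal.span_le]
  intro c hc
  have hco : ((P.σ c).coeffs : Set k) ⊆ Set.range (algebraMap B k) := fun x hx =>
    ⟨⟨x, Algebra.subset_adjoin (Or.inr (Set.mem_biUnion hc hx))⟩, rfl⟩
  obtain ⟨q, hq⟩ := MvPolynomial.mem_range_map_iff_coeffs_subset.2 hco
  have hfc : f (Ideal.Quotient.mk _ q) = c := by
    rw [hf, Algebra.Presentation.tensorModelOfHasCoeffsEquiv_tmul, map_one, one_mul,
      ← MvPolynomial.aeval_map_algebraMap k, hq]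
    exact P.aeval_val_σ c
  have hcI : c ∈ I := by
    rw [← hs]
    exact Ideal.subset_span hc
  have hm : f (Ideal.Quotient.mk _ q) ∈ (I.comap f).map f := by
    refine Ideal.mem_map_of_mem f ?_
    rw [Ideal.mem_comap, hfc]
    exact hcI
  rw [hfc] at hm
  exact hm

theorem EF_exists {k S : Type u} [Field k] [CommRing S] [Algebra k S]
    [Algebra.EssFiniteType k S] (I : Ideal S) :
    ∃ (A : Type u) (_ : CommRing A) (_ : Algebra A S), Algebra.FiniteType ℤ A ∧
      Module.Flat A S ∧ ∃ I₀ : Ideal A, I₀.map (algebraMap A S) = I := by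
  obtain ⟨A, iA, iAC, hft, hfl, I₀, hI₀⟩ :=
    ef_ft (k := k) (C := Algebra.EssFiniteType.subalgebra k S) (I.comap (algebraMap (Algebra.EssFiniteType.subalgebra k S) S))
  letI := iA
  letI := iAC
  letI : Algebra A S := ((algebraMap (Algebra.EssFiniteType.subalgebra k S) S).comp
    (algebraMap A (Algebra.EssFiniteType.subalgebra k S))).toAlgebra
  haveI : IsScalarTower A (Algebra.EssFiniteType.subalgebra k S) S := IsScalarTower.of_algebraMap_eq fun _ => rfl
  haveI : Module.Flat (Algebra.EssFiniteType.subalgebra k S) S :=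
    IsLocalization.flat _ (Algebra.EssFiniteType.submonoid k S)
  refine ⟨A, iA, inferInstance, hft, Module.Flat.trans A (Algebra.EssFiniteType.subalgebra k S) S, I₀, ?_⟩
  rw [IsScalarTower.algebraMap_eq A (Algebra.EssFiniteType.subalgebra k S) S, ← Ideal.map_map, hI₀]
  exact IsLocalization.map_comap (Algebra.EssFiniteType.submonoid k S) S I

end Pool.Agent.Lib.H78C
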