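import Pool.Agent.Lib.H78C.Defs

/-!
# FB: flat base change of the normal module.
`IsBaseChange.of_left_exact` (Mathlib.RingTheory.Flat.IsBaseChange) applied to
`0 → Hom(I, A/I) → (A/I)^b → (A/I)^c` for a finite presentation `A^c → A^b → I → 0`, and the same
sequence over `S` (the relations of the generators over `S` come from those over `A` by flatness).
-/

set_option autoImplicit false
open CategoryTheory IsLocalRing TensorProduct
open Pool.Agent.Lib.Helper92 Pool.Agent.Lib.H44V

namespace Pool.Agent.Lib.H78C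
universe u

private theorem fb_e1 {A S : Type u} [CommRing A] [CommRing S] [Algebra A S]
    [Module.Flat A S] (I : Ideal A) :
    ∃ e : (S ⊗[A] I) ≃ₗ[S] (I.map (algebraMap A S)),
      ∀ y : I, e (1 ⊗ₜ[A] y) = ⟨algebraMap A S y, Ideal.mem_map_of_mem _ y.2⟩ := by
  let f : (S ⊗[A] I) →ₗ[S] S :=
    (AlgebraTensorModule.rid A S S).toLinearMap ∘ₗ (LinearMap.baseChange S I.subtype)
  have hf : ∀ (s : S) (y : I), f (s ⊗ₜ[A] y) = algebraMap A S y * s := by
    intro s y
    simp [f, Algebra.smul_def]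
  have hinj : Function.Injective f := by
    have h1 : Function.Injective (LinearMap.baseChange S I.subtype) :=
      Module.Flat.lTensor_preserves_injective_linearMap (M := S) I.subtype I.injective_subtype
    exact (AlgebraTensorModule.rid A S S).injective.comp h1
  have hr : LinearMap.range f = I.map (algebraMap A S) := by
    apply le_antisymm
    · rintro _ ⟨x, rfl⟩
      induction x using TensorProduct.induction_on with
      | zero => simp
      | tmul s y =>
        rw [hf]
        exact Ideal.mul_mem_right _ _ (Ideal.mem_map_of_mem _ y.2)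
      | add x y hx hy => rw [map_add]; exact add_mem hx hy
    · change Ideal.span _ ≤ _
      rw [Ideal.span_le]
      rintro _ ⟨y, hy, rfl⟩
      exact ⟨1 ⊗ₜ[A] ⟨y, hy⟩, by rw [hf]; simp⟩
  refine ⟨(LinearEquiv.ofInjective f hinj).trans (LinearEquiv.ofEq _ _ hr), fun y => ?_⟩
  apply Subtype.ext
  change f (1 ⊗ₜ[A] y) = _
  rw [hf]; simp

theorem FB_baseChange {A S : Type u} [CommRing A] [CommRing S] [Algebra A S] [IsNoetherianRing A]
    [Module.Flat A S] (I : Ideal A) :
    ∃ β : (I →ₗ[A] (A ⧸ I)) →ₗ[A]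
        (I.map (algebraMap A S) →ₗ[S] (S ⧸ I.map (algebraMap A S))),
      IsBaseChange S β ∧
      ∀ (φ : I →ₗ[A] (A ⧸ I)) (y : I) (a : A), φ y = Submodule.Quotient.mk a →
        β φ ⟨algebraMap A S y, Ideal.mem_map_of_mem _ y.2⟩ =
          Submodule.Quotient.mk (algebraMap A S a) := by
  obtain ⟨e1, he1⟩ := fb_e1 (S := S) I
  let e2 : (S ⊗[A] (A ⧸ I)) ≃ₗ[S] (S ⧸ I.map (algebraMap A S)) :=
    (Algebra.TensorProduct.quotIdealMapEquivTensorQuot S I).symm.toLinearEquiv
  let E : ((S ⊗[A] I) →ₗ[S] (S ⊗[A] (A ⧸ I))) ≃ₗ[S]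
      (I.map (algebraMap A S) →ₗ[S] (S ⧸ I.map (algebraMap A S))) :=
    LinearEquiv.arrowCongr e1 e2
  haveI : Module.FinitePresentation A I := Module.finitePresentation_of_finite A I
  have h := Module.FinitePresentation.isBaseChange_map A I (A ⧸ I) S
  refine ⟨(E.toLinearMap.restrictScalars A) ∘ₗ LinearMap.baseChangeHom A S I (A ⧸ I), ?_, ?_⟩
  · refine IsBaseChange.of_equiv (h.equiv ≪≫ₗ E) (fun x => ?_)
    simp [IsBaseChange.equiv_tmul]
  · intro φ y a hya
    rw [← he1 y]
    change E (φ.baseChange S) (e1 (1 ⊗ₜ[A] y)) = _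
    have : E (φ.baseChange S) (e1 (1 ⊗ₜ[A] y)) = e2 (1 ⊗ₜ[A] φ y) := by
      simp [E, LinearEquiv.arrowCongr_apply]
    rw [this, hya]
    have h3 := Algebra.TensorProduct.quotIdealMapEquivTensorQuot_symm_tmul (A := A) S I 1 a
    change (Algebra.TensorProduct.quotIdealMapEquivTensorQuot S I).symm _ = _
    refine Eq.trans h3 ?_
    rw [Algebra.smul_def, mul_one]

end Pool.Agent.Lib.H78C
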