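import Pool.Agent.Lib.H78C.Defs

/-!
# LC: lifting complete intersections modulo a nonzerodivisor.
Lift the generators `f_i` to `I`; `I = (f) + xI` so `I = (f)` by Nakayama; `x, f_1, …, f_r` is
regular, so by exchange `f_1, …, f_r` is regular.
-/

set_option autoImplicit false
open CategoryTheory IsLocalRing TensorProduct
open Pool.Agent.Lib.Helper92 Pool.Agent.Lib.H44V

namespace Pool.Agent.Lib.H78C
universe u

theorem lc_reg {R : Type u} [CommRing R] (J : Ideal R) (y : R) :
    IsSMulRegular (R ⧸ J) y ↔ ∀ u : R, y * u ∈ J → u ∈ J := by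
  constructor
  · intro h u hu
    have h1 : y • (Ideal.Quotient.mk J u) = y • (0 : R ⧸ J) := by
      rw [smul_zero, Algebra.smul_def, Ideal.Quotient.algebraMap_eq, ← map_mul]
      exact Ideal.Quotient.eq_zero_iff_mem.2 hu
    exact Ideal.Quotient.eq_zero_iff_mem.1 (h h1)
  · intro h a b hab
    obtain ⟨a, rfl⟩ := Ideal.Quotient.mk_surjective a
    obtain ⟨b, rfl⟩ := Ideal.Quotient.mk_surjective b
    have h1 : y • (Ideal.Quotient.mk J a) = y • (Ideal.Quotient.mk J b) := hab
    rw [Algebra.smul_def, Algebra.smul_def, Ideal.Quotient.algebraMap_eq, ← map_mul, ← map_mul,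
      Ideal.Quotient.eq, ← mul_sub] at h1
    exact Ideal.Quotient.eq.2 (h _ h1)

theorem lc_map {R : Type u} [CommRing R] (x : R) (J : Ideal R) (y : R)
    (h : Ideal.Quotient.mk (Ideal.span {x}) y ∈ J.map (Ideal.Quotient.mk (Ideal.span {x}))) :
    ∃ a ∈ J, ∃ z, y = a + x * z := by
  rw [Ideal.mem_map_iff_of_surjective _ Ideal.Quotient.mk_surjective] at h
  obtain ⟨a, ha, hay⟩ := h
  have h1 : y - a ∈ Ideal.span {x} := Ideal.Quotient.eq.1 hay.symm
  obtain ⟨z, hz⟩ := Ideal.mem_span_singleton.1 h1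
  exact ⟨a, ha, z, by rw [← hz]; ring⟩

theorem lc_mem {R : Type u} [CommRing R] (x : R) (J : Ideal R) {a : R} (ha : a ∈ J) (z : R) :
    Ideal.Quotient.mk (Ideal.span {x}) (a + x * z) ∈ J.map (Ideal.Quotient.mk (Ideal.span {x})) := by
  have h0 : Ideal.Quotient.mk (Ideal.span {x}) (a + x * z) = Ideal.Quotient.mk (Ideal.span {x}) a := by
    rw [Ideal.Quotient.eq]
    exact Ideal.mem_span_singleton.2 ⟨z, by ring⟩
  rw [h0]
  exact Ideal.mem_map_of_mem _ ha

theorem lc_Jx_map {R : Type u} [CommRing R] (x : R) (f : ℕ → R) (f' : ℕ → R ⧸ Ideal.span {x}) (j : ℕ)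
    (h : ∀ i < j, Ideal.Quotient.mk (Ideal.span {x}) (f i) = f' i) :
    (Jx f j).map (Ideal.Quotient.mk (Ideal.span {x})) = Jx f' j := by
  induction j with
  | zero => exact Ideal.map_bot
  | succ j ih =>
    show (Jx f j ⊔ Ideal.span {f j}).map _ = Jx f' j ⊔ Ideal.span {f' j}
    rw [Ideal.map_sup, ih fun i hi => h i (by omega), Ideal.map_span, Set.image_singleton, h j (by omega)]

theorem LC_lift {L : Type u} [CommRing L] [IsNoetherianRing L] [IsLocalRing L] (x : L)
    (hxm : x ∈ maximalIdeal L) (hxL : IsSMulRegular L x) (I : Ideal L) (hI : I ≠ ⊤)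
    (hx : IsSMulRegular (L ⧸ I) x) (r : ℕ)
    (h : CI (I.map (Ideal.Quotient.mk (Ideal.span {x}))) r) : CI I r := by
  obtain ⟨f', hreg, hgen⟩ := h
  have hex : ∀ j, ∃ a : L, a ∈ I ∧ (j < r → Ideal.Quotient.mk (Ideal.span {x}) a = f' j) := by
    intro j
    by_cases hj : j < r
    · have h1 : f' j ∈ I.map (Ideal.Quotient.mk (Ideal.span {x})) := by
        rw [← hgen]
        have h2 : f' j ∈ Jx f' (j + 1) := by
          show f' j ∈ Jx f' j ⊔ Ideal.span {f' j}
          exact Ideal.mem_sup_right (Ideal.mem_span_singleton_self _)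
        have h3 : ∀ k, j + 1 ≤ k → Jx f' (j + 1) ≤ Jx f' k := by
          intro k hk
          induction k, hk using Nat.le_induction with
          | base => exact le_refl _
          | succ k hk ih => exact ih.trans le_sup_left
        exact h3 r hj h2
      rw [Ideal.mem_map_iff_of_surjective _ Ideal.Quotient.mk_surjective] at h1
      obtain ⟨a, ha, hay⟩ := h1
      exact ⟨a, ha, fun _ => hay⟩
    · exact ⟨0, I.zero_mem, fun h => absurd h hj⟩
  choose f hfI hf using hex
  have hmap : ∀ j ≤ r, (Jx f j).map (Ideal.Quotient.mk (Ideal.span {x})) = Jx f' j :=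
    fun j hj => lc_Jx_map x f f' j fun i hi => hf i (by omega)
  have hxI := (lc_reg I x).1 hx
  have hjac : maximalIdeal L ≤ Ideal.jacobson ⊥ := (IsLocalRing.jacobson_eq_maximalIdeal ⊥ bot_ne_top).ge
  have hxJ : ∀ z : L, ∀ N : Ideal L, z ∈ N → x * z ∈ maximalIdeal L • N := fun z N hz =>
    Submodule.smul_mem_smul hxm hz
  have hle : Jx f r ≤ I := Jx_le fun j _ => hfI j
  have hIJ : I ≤ Jx f r := by
    refine Submodule.le_of_le_smul_of_le_jacobson_bot (IsNoetherian.noetherian I) hjac ?_
    intro y hy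
    have h1 : Ideal.Quotient.mk (Ideal.span {x}) y ∈ (Jx f r).map (Ideal.Quotient.mk (Ideal.span {x})) := by
      rw [hmap r le_rfl, hgen]
      exact Ideal.mem_map_of_mem _ hy
    obtain ⟨a, ha, z, hz⟩ := lc_map x _ y h1
    have h2 : x * z ∈ I := by
      have : x * z = y - a := by rw [hz]; ring
      rw [this]
      exact I.sub_mem hy (hle ha)
    rw [hz]
    exact Submodule.add_mem_sup ha (hxJ z I (hxI z h2))
  -- the exchange
  have hH : ∀ j < r, ∀ y : L, ∀ a ∈ Jx f j, ∀ z : L, f j * y = a + x * z →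
      ∃ a' ∈ Jx f j, ∃ z', y = a' + x * z' := by
    intro j hj y a ha z hy
    have h1 := (lc_reg (Jx f' j) (f' j)).1 (hreg j hj) (Ideal.Quotient.mk (Ideal.span {x}) y) (by
      rw [← hf j hj, ← map_mul, hy, ← hmap j hj.le]
      exact lc_mem x _ ha z)
    rw [← hmap j hj.le] at h1
    exact lc_map x _ y h1
  have hA : ∀ j ≤ r, ∀ y : L, x * y ∈ Jx f j → y ∈ Jx f j := by
    intro j
    induction j with
    | zero =>
      intro _ y hy
      have h0 : Jx f 0 = (⊥ : Ideal L) := rfl
      rw [h0] at hy ⊢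
      have h1 : x • y = x • (0 : L) := by
        rw [smul_zero, smul_eq_mul]
        exact (Submodule.mem_bot L).1 hy
      exact (Submodule.mem_bot L).2 (hxL h1)
    | succ j ih =>
      intro hj y hy
      have hJ : Jx f (j + 1) = Jx f j ⊔ Ideal.span {f j} := rfl
      rw [hJ] at hy ⊢
      obtain ⟨a, ha, c, hc, hac⟩ := Submodule.mem_sup.1 hy
      obtain ⟨b, hb⟩ := Ideal.mem_span_singleton.1 hc
      have h1 : f j * b = -a + x * y := by rw [← hb, ← hac]; ring
      obtain ⟨a', ha', z, hz⟩ := hH j (by omega) b (-a) (neg_mem ha) y h1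
      have h2 : x * (y - f j * z) ∈ Jx f j := by
        have h3 : x * (y - f j * z) = a + f j * a' := by
          have h4 : x * y = a + f j * b := by rw [← hac, hb]
          rw [mul_sub, h4, hz]
          ring
        rw [h3]
        exact (Jx f j).add_mem ha ((Jx f j).mul_mem_left _ ha')
      have h3 := ih (by omega) _ h2
      have h4 : y = (y - f j * z) + f j * z := by ring
      rw [h4]
      exact Submodule.add_mem_sup h3 (Ideal.mem_span_singleton.2 ⟨z, rfl⟩)
  refine ⟨f, fun j hj => (lc_reg _ _).2 ?_, le_antisymm hle hIJ⟩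
  -- colon ideal
  let N : Ideal L := 
    { carrier := {y | f j * y ∈ Jx f j}
      add_mem' := fun {a b} ha hb => by
        show f j * (a + b) ∈ Jx f j
        rw [mul_add]
        exact (Jx f j).add_mem ha hb
      zero_mem' := by
        show f j * 0 ∈ Jx f j
        rw [mul_zero]
        exact (Jx f j).zero_mem
      smul_mem' := fun c y hy => by
        show f j * (c * y) ∈ Jx f j
        have h1 : f j * (c * y) = c * (f j * y) := by ring
        rw [h1]
        exact (Jx f j).mul_mem_left _ hy }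
  have hN : N ≤ Jx f j := by
    refine Submodule.le_of_le_smul_of_le_jacobson_bot (IsNoetherian.noetherian N) hjac ?_
    intro y hy
    have hy' : f j * y ∈ Jx f j := hy
    obtain ⟨a, ha, z, hz⟩ := hH j hj y (f j * y) hy' 0 (by ring)
    have h1 : x * (f j * z) ∈ Jx f j := by
      have h2 : x * (f j * z) = f j * y - f j * a := by rw [hz]; ring
      rw [h2]
      exact (Jx f j).sub_mem hy' ((Jx f j).mul_mem_left _ ha)
    have h3 : z ∈ N := hA j hj.le _ h1
    rw [hz]
    exact Submodule.add_mem_sup ha (hxJ z N h3)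
  exact fun u hu => hN hu

end Pool.Agent.Lib.H78C
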