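import Pool.Agent.Lib.H78C.Defs

/-!
# NX: the normal module modulo a nonzerodivisor.
`I' = I (L/x)`; a homomorphism `h : I → L/I` gives `h' : I' → L/(I + x)`, well defined because
`I ∩ xL = xI`.  Independence: if `∑ a_k h'_k = 0` then `∑ a_k h_k = x g = x ∑ b_k h_k`
(`Helper92.exists_smul_eq`).  Spanning: `Lft`.
-/

set_option autoImplicit false
open CategoryTheory IsLocalRing TensorProduct
open Pool.Agent.Lib.Helper92 Pool.Agent.Lib.H44V

namespace Pool.Agent.Lib.H78C
universe u

/-- an element of `L` maps into `I (L/x)` exactly when it lies in `I + x L`. -/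
lemma NX_mem_iff {L : Type u} [CommRing L] (x : L) (I : Ideal L) (c : L) :
    Ideal.Quotient.mk (Ideal.span {x}) c ∈ I.map (Ideal.Quotient.mk (Ideal.span {x})) ↔
      c ∈ I ⊔ Ideal.span {x} := by
  have h := Ideal.comap_map_of_surjective (Ideal.Quotient.mk (Ideal.span {x}))
    Ideal.Quotient.mk_surjective I
  have h2 : Ideal.comap (Ideal.Quotient.mk (Ideal.span {x})) ⊥ = Ideal.span {x} := by
    rw [← RingHom.ker_eq_comap_bot, Ideal.mk_ker]
  rw [h2] at h
  rw [← Ideal.mem_comap, h]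

/-- every element of `I (L/x)` is the class of an element of `I`. -/
lemma NX_lift {L : Type u} [CommRing L] (x : L) (I : Ideal L)
    (y : L ⧸ Ideal.span {x}) (hy : y ∈ I.map (Ideal.Quotient.mk (Ideal.span {x}))) :
    ∃ z ∈ I, Ideal.Quotient.mk (Ideal.span {x}) z = y :=
  (Ideal.mem_map_iff_of_surjective _ Ideal.Quotient.mk_surjective).mp hy

/-- well-definedness of `h'`. -/
lemma NX_wd {L : Type u} [CommRing L] (x : L) (I : Ideal L) (hx : IsSMulRegular (L ⧸ I) x)
    (h : I →ₗ[L] (L ⧸ I)) (y₁ y₂ : I) (c₁ c₂ : L)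
    (hy : Ideal.Quotient.mk (Ideal.span {x}) (y₁ : L) = Ideal.Quotient.mk (Ideal.span {x}) (y₂ : L))
    (h1 : h y₁ = Submodule.Quotient.mk c₁) (h2 : h y₂ = Submodule.Quotient.mk c₂) :
    c₁ - c₂ ∈ I ⊔ Ideal.span {x} := by
  rw [Ideal.Quotient.eq, Ideal.mem_span_singleton'] at hy
  obtain ⟨z, hz⟩ := hy
  have hzI : z ∈ I := by
    have h3 : x • (Submodule.Quotient.mk z : L ⧸ I) = x • (0 : L ⧸ I) := by
      rw [smul_zero, ← Submodule.Quotient.mk_smul, Submodule.Quotient.mk_eq_zero, smul_eq_mul,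
        mul_comm, hz]
      exact I.sub_mem y₁.2 y₂.2
    have h4 := hx h3
    exact (Submodule.Quotient.mk_eq_zero _).mp h4
  obtain ⟨d, hd⟩ := Submodule.Quotient.mk_surjective I (h ⟨z, hzI⟩)
  have h5 : y₁ - y₂ = x • (⟨z, hzI⟩ : I) := by
    apply Subtype.ext
    change (y₁ : L) - (y₂ : L) = x * z
    rw [← hz, mul_comm]
  have h6 : (Submodule.Quotient.mk (c₁ - c₂) : L ⧸ I) = Submodule.Quotient.mk (x * d) := by
    rw [Submodule.Quotient.mk_sub, ← h1, ← h2, ← map_sub, h5, map_smul, ← hd]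
    rfl
  rw [Submodule.Quotient.eq] at h6
  have h7 : c₁ - c₂ = (c₁ - c₂ - x * d) + x * d := by ring
  rw [h7]
  exact Ideal.add_mem _ (Ideal.mem_sup_left h6)
    (Ideal.mem_sup_right (Ideal.mul_mem_right _ _ (Ideal.mem_span_singleton_self x)))

/-- the map `h'` attached to `h`. -/
lemma NX_up {L : Type u} [CommRing L] (x : L) (I : Ideal L) (hx : IsSMulRegular (L ⧸ I) x)
    (h : I →ₗ[L] (L ⧸ I)) :
    ∃ h' : (I.map (Ideal.Quotient.mk (Ideal.span {x}))) →ₗ[L ⧸ Ideal.span {x}]
      ((L ⧸ Ideal.span {x}) ⧸ (I.map (Ideal.Quotient.mk (Ideal.span {x})))),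
      ∀ (y' : I.map (Ideal.Quotient.mk (Ideal.span {x}))) (y : I) (c : L),
        Ideal.Quotient.mk (Ideal.span {x}) (y : L) = (y' : L ⧸ Ideal.span {x}) →
        h y = Submodule.Quotient.mk c →
        h' y' = Submodule.Quotient.mk (Ideal.Quotient.mk (Ideal.span {x}) c) := by
  have hex : ∀ y' : I.map (Ideal.Quotient.mk (Ideal.span {x})), ∃ (y : I) (c : L),
      Ideal.Quotient.mk (Ideal.span {x}) (y : L) = (y' : L ⧸ Ideal.span {x}) ∧
      h y = Submodule.Quotient.mk c := by
    intro y'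
    obtain ⟨z, hz, hzy⟩ := NX_lift x I y'.1 y'.2
    obtain ⟨d, hd⟩ := Submodule.Quotient.mk_surjective I (h ⟨z, hz⟩)
    exact ⟨⟨z, hz⟩, d, hzy, hd.symm⟩
  choose Y C hY hC using hex
  have key : ∀ (y' : I.map (Ideal.Quotient.mk (Ideal.span {x}))) (y : I) (c : L),
      Ideal.Quotient.mk (Ideal.span {x}) (y : L) = (y' : L ⧸ Ideal.span {x}) →
      h y = Submodule.Quotient.mk c →
      (Submodule.Quotient.mk (Ideal.Quotient.mk (Ideal.span {x}) (C y')) :
        ((L ⧸ Ideal.span {x}) ⧸ (I.map (Ideal.Quotient.mk (Ideal.span {x}))))) =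
        Submodule.Quotient.mk (Ideal.Quotient.mk (Ideal.span {x}) c) := by
    intro y' y c hy hc
    have h1 := NX_wd x I hx h (Y y') y (C y') c (by rw [hY, hy]) (hC y') hc
    rw [Submodule.Quotient.eq, ← map_sub]
    exact (NX_mem_iff x I _).mpr h1
  refine ⟨{ toFun := fun y' => Submodule.Quotient.mk (Ideal.Quotient.mk (Ideal.span {x}) (C y'))
            map_add' := ?_
            map_smul' := ?_ }, fun y' y c hy hc => key y' y c hy hc⟩
  · intro y' z'
    have h1 := key (y' + z') (Y y' + Y z') (C y' + C z')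
      (by
        change Ideal.Quotient.mk (Ideal.span {x}) ((Y y' : L) + (Y z' : L)) =
          (y' : L ⧸ Ideal.span {x}) + (z' : L ⧸ Ideal.span {x})
        rw [map_add, hY, hY])
      (by rw [map_add, hC, hC, Submodule.Quotient.mk_add])
    rw [h1, map_add, Submodule.Quotient.mk_add]
  · intro a' y'
    obtain ⟨a, rfl⟩ := Ideal.Quotient.mk_surjective a'
    have h1 := key (Ideal.Quotient.mk (Ideal.span {x}) a • y') (a • Y y') (a * C y')
      (by
        change Ideal.Quotient.mk (Ideal.span {x}) (a * (Y y' : L)) =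
          Ideal.Quotient.mk (Ideal.span {x}) a * (y' : L ⧸ Ideal.span {x})
        rw [map_mul, hY])
      (by
        rw [map_smul, hC]
        rfl)
    rw [h1, map_mul]
    rfl

/-- the map `φ : I → L/(I + x)` attached to a homomorphism `φ'` on `I (L/x)`. -/
lemma NX_down {L : Type u} [CommRing L] (x : L) (I : Ideal L)
    (φ' : (I.map (Ideal.Quotient.mk (Ideal.span {x}))) →ₗ[L ⧸ Ideal.span {x}]
      ((L ⧸ Ideal.span {x}) ⧸ (I.map (Ideal.Quotient.mk (Ideal.span {x}))))) :
    ∃ φ : I →ₗ[L] (L ⧸ (I ⊔ Ideal.span {x})),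
      ∀ (y : I) (c : L),
        φ' ⟨Ideal.Quotient.mk (Ideal.span {x}) (y : L), Ideal.mem_map_of_mem _ y.2⟩ =
          Submodule.Quotient.mk (Ideal.Quotient.mk (Ideal.span {x}) c) →
        φ y = Submodule.Quotient.mk c := by
  have hex : ∀ y : I, ∃ c : L,
      φ' ⟨Ideal.Quotient.mk (Ideal.span {x}) (y : L), Ideal.mem_map_of_mem _ y.2⟩ =
          Submodule.Quotient.mk (Ideal.Quotient.mk (Ideal.span {x}) c) := by
    intro y
    obtain ⟨d', hd'⟩ := Submodule.Quotient.mk_surjective _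
      (φ' ⟨Ideal.Quotient.mk (Ideal.span {x}) (y : L), Ideal.mem_map_of_mem _ y.2⟩)
    obtain ⟨d, rfl⟩ := Ideal.Quotient.mk_surjective d'
    exact ⟨d, hd'.symm⟩
  choose C hC using hex
  have key : ∀ (y : I) (c : L),
      φ' ⟨Ideal.Quotient.mk (Ideal.span {x}) (y : L), Ideal.mem_map_of_mem _ y.2⟩ =
          Submodule.Quotient.mk (Ideal.Quotient.mk (Ideal.span {x}) c) →
      (Submodule.Quotient.mk (C y) : L ⧸ (I ⊔ Ideal.span {x})) = Submodule.Quotient.mk c := by
    intro y c hc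
    rw [hC, Submodule.Quotient.eq, ← map_sub] at hc
    rw [Submodule.Quotient.eq]
    exact (NX_mem_iff x I _).mp hc
  refine ⟨{ toFun := fun y => Submodule.Quotient.mk (C y)
            map_add' := ?_
            map_smul' := ?_ }, fun y c hc => key y c hc⟩
  · intro y z
    have h1 := key (y + z) (C y + C z)
      (by
        have h2 : (⟨Ideal.Quotient.mk (Ideal.span {x}) ((y + z : I) : L),
            Ideal.mem_map_of_mem _ (y + z).2⟩ : I.map (Ideal.Quotient.mk (Ideal.span {x}))) =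
            ⟨Ideal.Quotient.mk (Ideal.span {x}) (y : L), Ideal.mem_map_of_mem _ y.2⟩ +
            ⟨Ideal.Quotient.mk (Ideal.span {x}) (z : L), Ideal.mem_map_of_mem _ z.2⟩ := by
          apply Subtype.ext
          exact map_add (Ideal.Quotient.mk (Ideal.span {x})) (y : L) (z : L)
        rw [h2, map_add, hC, hC, ← Submodule.Quotient.mk_add, ← map_add])
    rw [h1, Submodule.Quotient.mk_add]
  · intro a y
    have h1 := key (a • y) (a * C y)
      (by
        have h2 : (⟨Ideal.Quotient.mk (Ideal.span {x}) ((a • y : I) : L),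
            Ideal.mem_map_of_mem _ (a • y).2⟩ : I.map (Ideal.Quotient.mk (Ideal.span {x}))) =
            Ideal.Quotient.mk (Ideal.span {x}) a •
              ⟨Ideal.Quotient.mk (Ideal.span {x}) (y : L), Ideal.mem_map_of_mem _ y.2⟩ := by
          apply Subtype.ext
          exact map_mul (Ideal.Quotient.mk (Ideal.span {x})) a (y : L)
        rw [h2, map_smul, hC, map_mul]
        rfl)
    rw [h1]
    rfl

/-- values of a combination. -/
lemma NX_sum {L : Type u} [CommRing L] {I : Ideal L} {M : Type u} [AddCommGroup M] [Module L M]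
    {r : ℕ} (h : Fin r → (M →ₗ[L] (L ⧸ I))) (a c : Fin r → L) (y : M)
    (hc : ∀ i, h i y = Submodule.Quotient.mk (c i)) :
    (∑ i, a i • h i) y = Submodule.Quotient.mk (∑ i, a i * c i) := by
  rw [qmk_sum, LinearMap.sum_apply]
  refine Finset.sum_congr rfl fun i _ => ?_
  rw [LinearMap.smul_apply, hc]
  rfl

theorem NX_modx {L : Type u} [CommRing L] (x : L) (I : Ideal L) (hx : IsSMulRegular (L ⧸ I) x)
    (hl : Lft I x) (r : ℕ) (h : NF I r) :
    NF (I.map (Ideal.Quotient.mk (Ideal.span {x}))) r := by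
  obtain ⟨h, hb⟩ := h
  have hup := fun k => NX_up x I hx (h k)
  choose h' hh' using hup
  refine ⟨h', ?_, ?_⟩
  · intro a' ha' i
    have hch := fun i => Ideal.Quotient.mk_surjective (a' i)
    choose a ha using hch
    rw [← ha i]
    refine (NX_mem_iff x I _).mpr (hb.coeff_mem a x hx (fun y => ?_) i)
    have hc := fun k => Submodule.Quotient.mk_surjective I (h k y)
    choose c hc using hc
    have h1 := NX_sum h a c y (fun k => (hc k).symm)
    have h2 := NX_sum h' a' (fun k => Ideal.Quotient.mk (Ideal.span {x}) (c k))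
      ⟨Ideal.Quotient.mk (Ideal.span {x}) (y : L), Ideal.mem_map_of_mem _ y.2⟩
      (fun k => hh' k _ y (c k) rfl (hc k).symm)
    rw [ha', LinearMap.zero_apply] at h2
    have h3 : (∑ i, a' i * Ideal.Quotient.mk (Ideal.span {x}) (c i)) =
        Ideal.Quotient.mk (Ideal.span {x}) (∑ i, a i * c i) := by
      rw [map_sum]
      refine Finset.sum_congr rfl fun k _ => ?_
      rw [map_mul, ha]
    rw [h3] at h2
    have h4 := (NX_mem_iff x I _).mp ((Submodule.Quotient.mk_eq_zero _).mp h2.symm)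
    obtain ⟨w, hw, v, hv, hwv⟩ := Submodule.mem_sup.mp h4
    obtain ⟨z, rfl⟩ := Ideal.mem_span_singleton'.mp hv
    refine ⟨Submodule.Quotient.mk z, ?_⟩
    rw [h1, ← Submodule.Quotient.mk_smul, Submodule.Quotient.eq, smul_eq_mul, ← hwv]
    have h5 : w + z * x - x * z = w := by ring
    rw [h5]
    exact hw
  · intro φ'
    obtain ⟨φ, hφ⟩ := NX_down x I φ'
    obtain ⟨ψ, hψ⟩ := hl φ
    obtain ⟨a, ha⟩ := hb.span ψ
    refine ⟨fun k => Ideal.Quotient.mk (Ideal.span {x}) (a k), ?_⟩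
    apply LinearMap.ext
    intro y'
    obtain ⟨y, hy, hyy⟩ := NX_lift x I y'.1 y'.2
    have hc := fun k => Submodule.Quotient.mk_surjective I (h k ⟨y, hy⟩)
    choose c hc using hc
    have h1 := NX_sum h a c ⟨y, hy⟩ (fun k => (hc k).symm)
    have h2 := NX_sum h' (fun k => Ideal.Quotient.mk (Ideal.span {x}) (a k))
      (fun k => Ideal.Quotient.mk (Ideal.span {x}) (c k)) y'
      (fun k => hh' k y' ⟨y, hy⟩ (c k) hyy (hc k).symm)
    rw [h2]
    obtain ⟨d', hd'⟩ := Submodule.Quotient.mk_surjective _ (φ' y')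
    obtain ⟨d, rfl⟩ := Ideal.Quotient.mk_surjective d'
    have h3 : (⟨Ideal.Quotient.mk (Ideal.span {x}) y, Ideal.mem_map_of_mem _ hy⟩ :
        I.map (Ideal.Quotient.mk (Ideal.span {x}))) = y' := Subtype.ext hyy
    have h4 := hφ ⟨y, hy⟩ d (by rw [h3]; exact hd'.symm)
    rw [hψ, LinearMap.comp_apply, ha, h1] at h4
    have h5 : (Submodule.Quotient.mk (∑ i, a i * c i) : L ⧸ (I ⊔ Ideal.span {x})) =
        Submodule.Quotient.mk d := h4
    rw [Submodule.Quotient.eq] at h5
    have h6 := (NX_mem_iff x I _).mpr h5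
    rw [← hd', eq_comm, Submodule.Quotient.eq]
    have h7 : (∑ i, Ideal.Quotient.mk (Ideal.span {x}) (a i) *
        Ideal.Quotient.mk (Ideal.span {x}) (c i)) - Ideal.Quotient.mk (Ideal.span {x}) d =
        Ideal.Quotient.mk (Ideal.span {x}) (∑ i, a i * c i - d) := by
      rw [map_sub, map_sum]
      simp only [map_mul]
    rw [h7]
    exact h6

end Pool.Agent.Lib.H78C
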