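import Pool.Agent.Lib.H78C.Defs
import Pool.Agent.Lib.H78C.A1

/-!
# P3: projective dimension modulo a nonzerodivisor on `L` and `M`, by induction on `n` with
A1_shift (`F = M →₀ L`; the kernel `K` is `x`-regular and `0 → K/xK → F/xF → M/xM → 0` is exact).
-/

set_option autoImplicit false
open CategoryTheory IsLocalRing TensorProduct
open Pool.Agent.Lib.Helper92 Pool.Agent.Lib.H44V

namespace Pool.Agent.Lib.H78C
universe u

private theorem p3_surj {L : Type u} [CommRing L] (I : Ideal L) {M : Type u} [AddCommGroup M]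
    [Module L M] (t : (L ⧸ I) ⊗[L] M) : ∃ m : M, t = (1 : L ⧸ I) ⊗ₜ[L] m := by
  induction t using TensorProduct.induction_on with
  | zero => exact ⟨0, by rw [TensorProduct.tmul_zero]⟩
  | tmul a m =>
    obtain ⟨b, rfl⟩ := Ideal.Quotient.mk_surjective a
    refine ⟨b • m, ?_⟩
    rw [← TensorProduct.smul_tmul, Algebra.smul_def, mul_one]
    rfl
  | add u v hu hv =>
    obtain ⟨m, rfl⟩ := hu
    obtain ⟨m', rfl⟩ := hv
    exact ⟨m + m', by rw [TensorProduct.tmul_add]⟩

private theorem p3_zero {L : Type u} [CommRing L] (x : L) {M : Type u} [AddCommGroup M]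
    [Module L M] (m : M) (h : (1 : L ⧸ Ideal.span {x}) ⊗ₜ[L] m = 0) : ∃ m' : M, m = x • m' := by
  have h1 := congrArg (TensorProduct.quotTensorEquivQuotSMul M (Ideal.span {x})) h
  rw [TensorProduct.quotTensorEquivQuotSMul_mk_one_tmul, map_zero,
    Submodule.Quotient.mk_eq_zero, Submodule.ideal_span_singleton_smul] at h1
  obtain ⟨m', -, hm'⟩ := (Submodule.mem_smul_pointwise_iff_exists m x ⊤).1 h1
  exact ⟨m', hm'.symm⟩

private theorem p3_zero' {L : Type u} [CommRing L] (x : L) {M : Type u} [AddCommGroup M]
    [Module L M] (m : M) : (1 : L ⧸ Ideal.span {x}) ⊗ₜ[L] (x • m) = 0 := by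
  rw [← TensorProduct.smul_tmul, Algebra.smul_def, mul_one]
  have h : (algebraMap L (L ⧸ Ideal.span {x})) x = 0 :=
    Ideal.Quotient.eq_zero_iff_mem.2 (Ideal.mem_span_singleton_self x)
  rw [h, TensorProduct.zero_tmul]

theorem P3_modx {L : Type u} [CommRing L] (x : L) (hx : IsSMulRegular L x) (n : ℕ) :
    ∀ (M : Type u) [AddCommGroup M] [Module L M], IsSMulRegular M x → PD L M n →
      PD (L ⧸ Ideal.span {x}) ((L ⧸ Ideal.span {x}) ⊗[L] M) n := by
  induction n with
  | zero =>
    intro M _ _ hM h
    rw [A1_zero] at h ⊢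
    refine ⟨fun a b => ?_⟩
    obtain ⟨m, rfl⟩ := p3_surj _ a
    obtain ⟨m', rfl⟩ := p3_surj _ b
    rw [Subsingleton.elim m m']
  | succ n ih =>
    intro M _ _ hM h
    cases n with
    | zero =>
      change PD L M 1 at h
      change PD (L ⧸ Ideal.span {x}) ((L ⧸ Ideal.span {x}) ⊗[L] M) 1
      rw [A1_one] at h ⊢
      infer_instance
    | succ n =>
      change PD L M (n + 2) at h
      change PD (L ⧸ Ideal.span {x}) ((L ⧸ Ideal.span {x}) ⊗[L] M) (n + 2)
      obtain ⟨f, hf⟩ : ∃ f : (M →₀ L) →ₗ[L] M, Function.Surjective f :=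
        ⟨Finsupp.linearCombination L id, Finsupp.linearCombination_surjective L Function.surjective_id⟩
      have hF : IsSMulRegular (M →₀ L) x := by
        intro u v huv
        ext i
        have h1 := DFunLike.congr_fun huv i
        exact hx h1
      have hK : IsSMulRegular (LinearMap.ker f) x := by
        intro u v huv
        apply Subtype.ext
        exact hF (congrArg Subtype.val huv)
      have h1 := ih (LinearMap.ker f) hK ((A1_shift f hf n).1 h)
      have hinj : Function.Injective ((LinearMap.ker f).subtype.baseChange (L ⧸ Ideal.span {x})) := by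
        rw [injective_iff_map_eq_zero]
        intro t ht
        obtain ⟨k, rfl⟩ := TensorProduct.mk_surjective L (LinearMap.ker f) (L ⧸ Ideal.span {x})
          Ideal.Quotient.mk_surjective t
        rw [TensorProduct.mk_apply] at ht ⊢
        rw [LinearMap.baseChange_tmul] at ht
        obtain ⟨g, hg⟩ := p3_zero x _ ht
        have hg0 : f g = 0 := by
          apply hM
          change x • f g = x • (0 : M)
          rw [← map_smul, ← hg, smul_zero]
          exact k.2
        have hk : k = x • (⟨g, hg0⟩ : LinearMap.ker f) := Subtype.ext hg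
        rw [hk]
        exact p3_zero' x (⟨g, hg0⟩ : LinearMap.ker f)
      have hrange : LinearMap.range ((LinearMap.ker f).subtype.baseChange (L ⧸ Ideal.span {x})) =
          LinearMap.ker (f.baseChange (L ⧸ Ideal.span {x})) := by
        ext t
        rw [LinearMap.mem_ker, LinearMap.mem_range]
        constructor
        · rintro ⟨u, rfl⟩
          obtain ⟨k, rfl⟩ := TensorProduct.mk_surjective L (LinearMap.ker f) (L ⧸ Ideal.span {x})
            Ideal.Quotient.mk_surjective u
          rw [TensorProduct.mk_apply, LinearMap.baseChange_tmul, LinearMap.baseChange_tmul]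
          have hk : f ((LinearMap.ker f).subtype k) = 0 := k.2
          rw [hk, TensorProduct.tmul_zero]
        · intro ht
          obtain ⟨g, rfl⟩ := TensorProduct.mk_surjective L (M →₀ L) (L ⧸ Ideal.span {x})
            Ideal.Quotient.mk_surjective t
          rw [TensorProduct.mk_apply] at ht ⊢
          rw [LinearMap.baseChange_tmul] at ht
          obtain ⟨m', hm'⟩ := p3_zero x _ ht
          obtain ⟨g', rfl⟩ := hf m'
          have hk : f (g - x • g') = 0 := by rw [map_sub, map_smul, hm', sub_self]
          refine ⟨(1 : L ⧸ Ideal.span {x}) ⊗ₜ[L] (⟨g - x • g', hk⟩ : LinearMap.ker f), ?_⟩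
          rw [LinearMap.baseChange_tmul, Submodule.subtype_apply, TensorProduct.tmul_sub,
            p3_zero' x g', sub_zero]
      have hsurj : Function.Surjective (f.baseChange (L ⧸ Ideal.span {x})) :=
        LinearMap.lTensor_surjective _ hf
      rw [A1_shift (f.baseChange (L ⧸ Ideal.span {x})) hsurj n]
      exact A1_equiv ((LinearEquiv.ofInjective _ hinj).trans (LinearEquiv.ofEq _ _ hrange)) (n + 1) h1

end Pool.Agent.Lib.H78C
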