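import Pool.Agent.Lib.H78C.Defs
import Pool.Agent.Lib.H78C.A2
import Pool.Agent.Lib.H78C.P3
import Pool.Agent.Lib.H78C.NX
import Pool.Agent.Lib.H78C.LC
import Pool.Agent.Lib.H44V.M1

/-!
# LS: the local step.
-/

set_option autoImplicit false
open CategoryTheory IsLocalRing TensorProduct
open Pool.Agent.Lib.Helper92 Pool.Agent.Lib.H44V

namespace Pool.Agent.Lib.H78C
universe u

private theorem ls_charP (p : ℕ) [Fact p.Prime] {L : Type u} [CommRing L]
    [Nontrivial (L ⧸ Ideal.span {(p : L)})] : CharP (L ⧸ Ideal.span {(p : L)}) p := by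
  have h0 : ((p : ℕ) : L ⧸ Ideal.span {(p : L)}) = 0 := by
    have h5 := map_natCast (Ideal.Quotient.mk (Ideal.span {(p : L)})) p
    rw [← h5]
    exact Ideal.Quotient.eq_zero_iff_mem.2 (Ideal.mem_span_singleton_self _)
  obtain ⟨q, hq⟩ := CharP.exists (L ⧸ Ideal.span {(p : L)})
  have h1 : q ∣ p := (CharP.cast_eq_zero_iff (L ⧸ Ideal.span {(p : L)}) q p).mp h0
  have h2 : q ≠ 1 := by
    rintro rfl
    exact CharP.ringChar_ne_one (R := L ⧸ Ideal.span {(p : L)}) (ringChar.eq _ 1)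
  have h3 : q = p := (Nat.Prime.eq_one_or_self_of_dvd Fact.out q h1).resolve_left h2
  rw [h3] at hq
  exact hq

theorem LS_main (p : ℕ) [Fact p.Prime] {L : Type u} [CommRing L] [IsNoetherianRing L]
    [IsLocalRing L] (hp : (p : L) ∈ maximalIdeal L) (hL : IsSMulRegular L (p : L)) (I : Ideal L)
    (hI : I ≠ ⊤) (hx : IsSMulRegular (L ⧸ I) (p : L)) (hl : Lft I (p : L)) (n : ℕ)
    (hpd : PD L (L ⧸ I) n) (r : ℕ) (h : NF I r) : CI I r := by
  have hspan : Ideal.span {(p : L)} ≤ maximalIdeal L := by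
    rw [Ideal.span_singleton_le_iff_mem]
    exact hp
  have hne : Ideal.span {(p : L)} ≠ ⊤ := fun h0 => (maximalIdeal.isMaximal L).ne_top
    (top_le_iff.1 (h0 ▸ hspan))
  have : Nontrivial (L ⧸ Ideal.span {(p : L)}) := Ideal.Quotient.nontrivial_iff.2 hne
  have : IsLocalRing (L ⧸ Ideal.span {(p : L)}) :=
    IsLocalRing.of_surjective' (Ideal.Quotient.mk (Ideal.span {(p : L)})) Ideal.Quotient.mk_surjective
  have hchar := ls_charP p (L := L)
  have hI' : I.map (Ideal.Quotient.mk (Ideal.span {(p : L)})) ≠ ⊤ := by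
    intro h0
    have h1 : (1 : L ⧸ Ideal.span {(p : L)}) ∈ I.map (Ideal.Quotient.mk (Ideal.span {(p : L)})) := by
      rw [h0]; trivial
    rw [← map_one (Ideal.Quotient.mk (Ideal.span {(p : L)}))] at h1
    have h2 := (NX_mem_iff (p : L) I 1).mp h1
    have h3 : I ⊔ Ideal.span {(p : L)} ≤ maximalIdeal L := sup_le (le_maximalIdeal hI) hspan
    exact (maximalIdeal.isMaximal L).ne_top ((Ideal.eq_top_iff_one _).2 (h3 h2))
  have hpd' : PD (L ⧸ Ideal.span {(p : L)})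
      ((L ⧸ Ideal.span {(p : L)}) ⧸ I.map (Ideal.Quotient.mk (Ideal.span {(p : L)}))) n := by
    have h1 := P3_modx (p : L) hL n (L ⧸ I) hx hpd
    exact (A2_pd (S := L ⧸ Ideal.span {(p : L)}) I n).1 h1
  obtain ⟨h', hb'⟩ := NX_modx (p : L) I hx hl r h
  obtain ⟨d, hd⟩ : ∃ d : ℕ, ringKrullDim (L ⧸ Ideal.span {(p : L)}) < ((d : ℕ) : WithBot ℕ∞) := by
    have h1 := ringKrullDim_lt_top (R := L ⧸ Ideal.span {(p : L)})
    have h2 : ringKrullDim (L ⧸ Ideal.span {(p : L)}) ≠ ⊤ := h1.ne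
    have h3 : ringKrullDim (L ⧸ Ideal.span {(p : L)}) ≠ ⊥ := ringKrullDim_ne_bot
    obtain ⟨e, he⟩ := WithBot.ne_bot_iff_exists.1 h3
    have h4 : e ≠ ⊤ := by
      rintro rfl
      exact h2 he.symm
    obtain ⟨k, hk⟩ := ENat.ne_top_iff_exists.1 h4
    refine ⟨k + 1, ?_⟩
    rw [← he, ← hk]
    exact_mod_cast Nat.lt_succ_self k
  have h5 := M1_main p d (L ⧸ Ideal.span {(p : L)}) hd
    (I.map (Ideal.Quotient.mk (Ideal.span {(p : L)}))) hI' n hpd' r h' hb'
  exact LC_lift (p : L) hp hL I hI hx r h5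

end Pool.Agent.Lib.H78C
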