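import Pool.Agent.Lib.H78C.Defs
import Pool.Agent.Lib.H78C.FB

/-!
# N1: faithfully flat descent of freeness of the normal module.
`N(I)` is a finite `L/I`-module; `L/I → S/IS` is faithfully flat and
`(S/IS) ⊗ N(I) ≅ N(IS)` is free of rank `r`, so `N(I)` is flat, hence free over `L/I`.
-/

set_option autoImplicit false
open CategoryTheory IsLocalRing TensorProduct
open Pool.Agent.Lib.Helper92 Pool.Agent.Lib.H44V

namespace Pool.Agent.Lib.H78C
universe u

/-- minimal generators of a finite module over a local ring: relations have coefficients in the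
maximal ideal. -/
private lemma N1_min {L N : Type u} [CommRing L] [IsLocalRing L] [AddCommGroup N] [Module L N]
    [Module.Finite L N] : ∃ T : Finset N, Submodule.span L (T : Set N) = ⊤ ∧
      ∀ a : T → L, ∑ i, a i • (i : N) = 0 → ∀ i, a i ∈ maximalIdeal L := by
  classical
  have hex : ∃ n : ℕ, ∃ T : Finset N, Submodule.span L (T : Set N) = ⊤ ∧ T.card = n := by
    obtain ⟨T, hT⟩ := (Module.finite_def.1 (inferInstance : Module.Finite L N))
    exact ⟨_, T, hT, rfl⟩
  obtain ⟨T, hT, hc⟩ := Nat.find_spec hex
  refine ⟨T, hT, fun a ha i => ?_⟩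
  by_contra hni
  have hu : IsUnit (a i) := by
    by_contra h
    exact hni ((mem_maximalIdeal _).2 h)
  obtain ⟨u, hu⟩ := hu
  have hi : (i : N) ∈ Submodule.span L ((T.erase i : Finset N) : Set N) := by
    have h1 : a i • (i : N) = - ∑ j ∈ Finset.univ.erase i, a j • (j : N) := by
      rw [← Finset.add_sum_erase _ _ (Finset.mem_univ i)] at ha
      exact eq_neg_of_add_eq_zero_left ha
    have h2 : (i : N) = (↑u⁻¹ : L) • (- ∑ j ∈ Finset.univ.erase i, a j • (j : N)) := by
      rw [← h1, ← hu, smul_smul, Units.inv_mul, one_smul]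
    have h3 : (↑u⁻¹ : L) • (- ∑ j ∈ Finset.univ.erase i, a j • (j : N)) ∈
        Submodule.span L ((T.erase i : Finset N) : Set N) := by
      refine Submodule.smul_mem _ _ (Submodule.neg_mem _ (Submodule.sum_mem _ fun j hj => ?_))
      refine Submodule.smul_mem _ _ (Submodule.subset_span ?_)
      rw [Finset.mem_erase] at hj
      rw [Finset.mem_coe, Finset.mem_erase]
      exact ⟨fun h => hj.1 (Subtype.ext h), j.2⟩
    rw [← h2] at h3
    exact h3
  have hspan : Submodule.span L ((T.erase i : Finset N) : Set N) = ⊤ := by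
    rw [eq_top_iff, ← hT, Submodule.span_le]
    intro x hx
    by_cases h : x = i
    · rw [h]; exact hi
    · exact Submodule.subset_span (by
        rw [Finset.mem_coe, Finset.mem_erase]; exact ⟨h, hx⟩)
  have := Nat.find_min' hex ⟨T.erase i, hspan, rfl⟩
  rw [← hc, Finset.card_erase_of_mem i.2] at this
  have hpos : 0 < T.card := Finset.card_pos.2 ⟨i, i.2⟩
  omega

private lemma N1_core {L S N N' : Type u} [CommRing L] [CommRing S] [Algebra L S] [IsLocalRing L]
    [Module.FaithfullyFlat L S] (I : Ideal L) (hI : I.map (algebraMap L S) ≠ ⊤)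
    [AddCommGroup N] [Module L N] [Module.Finite L N] [AddCommGroup N'] [Module S N']
    [Module L N'] [IsScalarTower L S N'] (β : N →ₗ[L] N') (hβ : IsBaseChange S β) (r : ℕ)
    (e : Fin r → N')
    (hind : ∀ a : Fin r → S, ∑ i, a i • e i = 0 → ∀ i, a i ∈ I.map (algebraMap L S))
    (hspan : ∀ g : N', ∃ a : Fin r → S, g = ∑ i, a i • e i) :
    ∃ h : Fin r → N, (∀ a : Fin r → L, ∑ i, a i • h i = 0 → ∀ i, a i ∈ I) ∧
      (∀ g : N, ∃ a : Fin r → L, g = ∑ i, a i • h i) := by
  classical
  obtain ⟨T, hT, hmin⟩ := N1_min (L := L) (N := N)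
  -- generation
  have hT' : Submodule.span L (Set.range (fun i : T => (i : N))) = ⊤ := by
    rw [← hT]; congr 1; ext x; simp
  have hgen : ∀ g : N, ∃ a : T → L, g = ∑ i, a i • (i : N) := by
    intro g
    have : g ∈ Submodule.span L (Set.range (fun i : T => (i : N))) := by rw [hT']; trivial
    obtain ⟨a, ha⟩ := (Submodule.mem_span_range_iff_exists_fun L).1 this
    exact ⟨a, ha.symm⟩
  have hgenS : ∀ x : N', ∃ d : T → S, x = ∑ i, d i • β (i : N) := by
    intro x
    induction x using hβ.inductionOn with
    | zero => exact ⟨0, by simp⟩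
    | tmul m =>
      obtain ⟨a, rfl⟩ := hgen m
      exact ⟨fun i => algebraMap L S (a i), by simp [map_sum]⟩
    | smul s n hn =>
      obtain ⟨d, rfl⟩ := hn
      exact ⟨fun i => s * d i, by simp [Finset.smul_sum, mul_smul]⟩
    | add n₁ n₂ h₁ h₂ =>
      obtain ⟨d₁, rfl⟩ := h₁
      obtain ⟨d₂, rfl⟩ := h₂
      exact ⟨fun i => d₁ i + d₂ i, by simp [add_smul, Finset.sum_add_distrib]⟩
  -- relations over `S` have coefficients in `mS`
  have hrel : ∀ s : T → S, ∑ i, s i • β (i : N) = 0 →
      ∀ i, s i ∈ (maximalIdeal L).map (algebraMap L S) := by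
    intro s hs i
    have h1 : ∑ i : T, (i : N) ⊗ₜ[L] s i = 0 := by
      have h2 : ∑ i : T, s i ⊗ₜ[L] (i : N) = 0 := by
        apply hβ.equiv.injective
        rw [map_sum, map_zero]
        simpa [IsBaseChange.equiv_tmul] using hs
      have h3 := congrArg (TensorProduct.comm L S N) h2
      rw [map_sum, map_zero] at h3
      simpa using h3
    obtain ⟨k, a, y, hy, ha⟩ := TensorProduct.vanishesTrivially_of_sum_tmul_eq_zero L hT' h1
    rw [hy i]
    refine Ideal.sum_mem _ fun j _ => ?_
    rw [Algebra.smul_def]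
    exact Ideal.mul_mem_right _ _ (Ideal.mem_map_of_mem _ (hmin _ (ha j) i))
  choose c hc using fun i : T => hspan (β (i : N))
  choose d hd using fun j : Fin r => hgenS (e j)
  have hIne : I ≠ ⊤ := by
    rintro rfl
    exact hI (Ideal.map_top _)
  have hIm : I ≤ maximalIdeal L := le_maximalIdeal hIne
  have hJ : (maximalIdeal L).map (algebraMap L S) ≠ ⊤ := by
    intro h
    have := Ideal.comap_map_eq_self_of_faithfullyFlat (B := S) (maximalIdeal L)
    rw [h, Ideal.comap_top] at this
    exact (maximalIdeal.isMaximal L).ne_top this.symm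
  -- DC = 1 mod IS
  have hDC : ∀ j k, (∑ i, d j i * c i k) - (if j = k then 1 else 0) ∈
      I.map (algebraMap L S) := by
    intro j
    refine hind _ ?_
    have h1 : e j = ∑ k, (∑ i, d j i * c i k) • e k := by
      conv_lhs => rw [hd j]
      simp_rw [Finset.sum_smul]
      rw [Finset.sum_comm]
      refine Finset.sum_congr rfl fun i _ => ?_
      rw [hc i, Finset.smul_sum]
      refine Finset.sum_congr rfl fun k _ => ?_
      rw [smul_smul]
    simp_rw [sub_smul, Finset.sum_sub_distrib]
    rw [← h1]
    simp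
  have hCD : ∀ i k, (∑ j, c i j * d j k) - (if i = k then 1 else 0) ∈
      (maximalIdeal L).map (algebraMap L S) := by
    intro i
    refine hrel _ ?_
    have h1 : β (i : N) = ∑ k, (∑ j, c i j * d j k) • β (k : N) := by
      conv_lhs => rw [hc i]
      simp_rw [Finset.sum_smul]
      rw [Finset.sum_comm]
      refine Finset.sum_congr rfl fun j _ => ?_
      rw [hd j, Finset.smul_sum]
      refine Finset.sum_congr rfl fun k _ => ?_
      rw [smul_smul]
    simp_rw [sub_smul, Finset.sum_sub_distrib]
    rw [← h1]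
    simp
  -- cardinality
  have hcard : Fintype.card T = r := by
    let J := (maximalIdeal L).map (algebraMap L S)
    have : Nontrivial (S ⧸ J) := Ideal.Quotient.nontrivial_iff.mpr hJ
    let C : Matrix T (Fin r) (S ⧸ J) := fun i j => Ideal.Quotient.mk J (c i j)
    let D : Matrix (Fin r) T (S ⧸ J) := fun j i => Ideal.Quotient.mk J (d j i)
    have h1 : C * D = 1 := by
      ext i k
      rw [Matrix.mul_apply, Matrix.one_apply]
      have := Ideal.Quotient.eq.2 (hCD i k)
      rw [map_sum] at this
      simp only [map_mul] at this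
      rw [this]
      split_ifs <;> simp
    have h2 : D * C = 1 := by
      ext i k
      rw [Matrix.mul_apply, Matrix.one_apply]
      have := Ideal.Quotient.eq.2 (Ideal.map_mono hIm (hDC i k))
      rw [map_sum] at this
      simp only [map_mul] at this
      rw [this]
      split_ifs <;> simp
    have := card_eq_of_linearEquiv (S ⧸ J) (Matrix.toLin'OfInv h1 h2)
    rw [Fintype.card_fin] at this
    omega
  let σ : Fin r ≃ T := (Fintype.equivFinOfCardEq hcard).symm
  -- CD = 1 mod IS
  have hCD' : ∀ i k, (∑ j, c i j * d j k) - (if i = k then 1 else 0) ∈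
      I.map (algebraMap L S) := by
    let J := I.map (algebraMap L S)
    let C : Matrix T (Fin r) (S ⧸ J) := fun i j => Ideal.Quotient.mk J (c i j)
    let D : Matrix (Fin r) T (S ⧸ J) := fun j i => Ideal.Quotient.mk J (d j i)
    have h2 : D * C = 1 := by
      ext i k
      rw [Matrix.mul_apply, Matrix.one_apply]
      have := Ideal.Quotient.eq.2 (hDC i k)
      rw [map_sum] at this
      simp only [map_mul] at this
      rw [this]
      split_ifs <;> simp
    have h1 : C * D = 1 := (Matrix.mul_eq_one_comm_of_equiv σ).1 h2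
    intro i k
    rw [← Ideal.Quotient.eq, map_sum]
    have := congrFun (congrFun h1 i) k
    rw [Matrix.mul_apply, Matrix.one_apply] at this
    simp only [map_mul]
    refine this.trans ?_
    split_ifs <;> simp
  refine ⟨fun k => (σ k : N), fun a ha => ?_, fun g => ?_⟩
  · have hb : ∑ i : T, a (σ.symm i) • (i : N) = 0 := by
      rw [← ha, ← σ.sum_comp]
      simp
    have h1 : ∀ j, ∑ i : T, algebraMap L S (a (σ.symm i)) * c i j ∈ I.map (algebraMap L S) := by
      refine hind _ ?_
      have h2 := congrArg β hb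
      rw [map_sum, map_zero] at h2
      rw [← h2]
      simp_rw [Finset.sum_smul]
      rw [Finset.sum_comm]
      refine Finset.sum_congr rfl fun i _ => ?_
      rw [map_smul, hc i, Finset.smul_sum]
      refine Finset.sum_congr rfl fun k _ => ?_
      rw [mul_smul, algebraMap_smul]
    intro k
    have h3 : algebraMap L S (a k) ∈ I.map (algebraMap L S) := by
      have h4 : ∑ i : T, algebraMap L S (a (σ.symm i)) *
          ((∑ j, c i j * d j (σ k)) - (if i = σ k then 1 else 0)) ∈ I.map (algebraMap L S) :=
        Ideal.sum_mem _ fun i _ => Ideal.mul_mem_left _ _ (hCD' i (σ k))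
      have h5 : ∑ j, (∑ i : T, algebraMap L S (a (σ.symm i)) * c i j) * d j (σ k) ∈
          I.map (algebraMap L S) :=
        Ideal.sum_mem _ fun j _ => Ideal.mul_mem_right _ _ (h1 j)
      have h6 : ∑ i : T, algebraMap L S (a (σ.symm i)) *
          ((∑ j, c i j * d j (σ k)) - (if i = σ k then 1 else 0)) =
          (∑ j, (∑ i : T, algebraMap L S (a (σ.symm i)) * c i j) * d j (σ k)) -
            algebraMap L S (a k) := by
        simp_rw [mul_sub, Finset.sum_sub_distrib, Finset.mul_sum, Finset.sum_mul]
        congr 1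
        · rw [Finset.sum_comm]
          refine Finset.sum_congr rfl fun j _ => Finset.sum_congr rfl fun i _ => ?_
          ring
        · simp
      rw [h6] at h4
      have := Ideal.sub_mem _ h5 h4
      simpa using this
    have h7 : a k ∈ (I.map (algebraMap L S)).comap (algebraMap L S) := h3
    rwa [Ideal.comap_map_eq_self_of_faithfullyFlat] at h7
  · obtain ⟨a, rfl⟩ := hgen g
    refine ⟨fun k => a (σ k), ?_⟩
    rw [← σ.sum_comp]

theorem N1_descent {L S : Type u} [CommRing L] [CommRing S] [Algebra L S] [IsNoetherianRing L]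
    [IsLocalRing L] [Module.FaithfullyFlat L S] (I : Ideal L)
    (hI : I.map (algebraMap L S) ≠ ⊤) (r : ℕ) (h : NF (I.map (algebraMap L S)) r) : NF I r := by
  obtain ⟨e, he⟩ := h
  obtain ⟨β, hβ, -⟩ := FB_baseChange (S := S) I
  have : Module.Finite L I := Module.Finite.of_fg (IsNoetherian.noetherian I)
  have : IsNoetherian L (I →ₗ[L] (L ⧸ I)) := isNoetherian_linearMap _ _ _
  obtain ⟨h, h1, h2⟩ := N1_core I hI β hβ r e he.indep he.span
  exact ⟨h, ⟨h1, h2⟩⟩

end Pool.Agent.Lib.H78C
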