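import Pool.Agent.Lib.H78C.Defs
import Pool.Agent.Lib.H78C.FB

/-!
# N2: spreading out freeness of the normal module.
Clear denominators of a basis at `P`: get `Θ : (A/I)^r → N(I)` which is bijective at `P`; kernel and
cokernel are finite, so they vanish at every prime not containing some `g ∉ P`.
-/

set_option autoImplicit false
open CategoryTheory IsLocalRing TensorProduct
open Pool.Agent.Lib.Helper92 Pool.Agent.Lib.H44V

namespace Pool.Agent.Lib.H78C
universe u

private theorem N2_unif {A M : Type*} [CommRing A] [AddCommGroup M] [Module A M] (P : Ideal A)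
    [P.IsPrime] (L Q : Submodule A M) (hL : L.FG) (h : ∀ m ∈ L, ∃ u : A, u ∉ P ∧ u • m ∈ Q) :
    ∃ g : A, g ∉ P ∧ ∀ m ∈ L, g • m ∈ Q := by
  classical
  obtain ⟨T, rfl⟩ := hL
  have h1 : ∀ m : M, ∃ u : A, m ∈ T → (u ∉ P ∧ u • m ∈ Q) := by
    intro m
    by_cases hm : m ∈ T
    · obtain ⟨u, hu⟩ := h m (Submodule.subset_span hm)
      exact ⟨u, fun _ => hu⟩
    · exact ⟨0, fun hc => absurd hc hm⟩
  choose u hu using h1
  refine ⟨∏ m ∈ T, u m, ?_, ?_⟩
  · intro hc
    obtain ⟨m, hm, hmP⟩ := Ideal.IsPrime.prod_mem_iff.1 hc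
    exact (hu m hm).1 hmP
  · have h2 : Submodule.span A (T : Set M) ≤ Q.comap (LinearMap.lsmul A M (∏ m ∈ T, u m)) := by
      rw [Submodule.span_le]
      intro m hm
      have h3 : (∏ m ∈ T, u m) • m = (∏ m' ∈ T.erase m, u m') • (u m • m) := by
        rw [smul_smul, Finset.prod_erase_mul _ _ hm]
      have h4 : (∏ m ∈ T, u m) • m ∈ Q := by
        rw [h3]
        exact Q.smul_mem _ (hu m hm).2
      exact h4
    intro m hm
    exact h2 hm

private theorem N2_sum {A M : Type*} [CommRing A] [AddCommGroup M] [Module A M] (P : Ideal A)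
    [P.IsPrime] (Q : Submodule A M) {r : ℕ} (m : Fin r → M)
    (h : ∀ k, ∃ u : A, u ∉ P ∧ u • m k ∈ Q) : ∃ u : A, u ∉ P ∧ u • ∑ k, m k ∈ Q := by
  classical
  choose u hu using h
  refine ⟨∏ k, u k, ?_, ?_⟩
  · intro hc
    obtain ⟨k, hk, hkP⟩ := Ideal.IsPrime.prod_mem_iff.1 hc
    exact (hu k).1 hkP
  · rw [Finset.smul_sum]
    refine Q.sum_mem fun k _ => ?_
    have h3 : (∏ k, u k) • m k = (∏ k' ∈ Finset.univ.erase k, u k') • (u k • m k) := by
      rw [smul_smul, Finset.prod_erase_mul _ _ (Finset.mem_univ k)]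
    rw [h3]
    exact Q.smul_mem _ (hu k).2

private theorem N2_gen {A N : Type*} [CommRing A] [IsNoetherianRing A] [AddCommGroup N] [Module A N]
    [Module.Finite A N] (P I : Ideal A) [P.IsPrime] {r : ℕ} (h' : Fin r → N)
    (h1 : ∀ n : N, ∃ u : A, u ∉ P ∧ u • n ∈ Submodule.span A (Set.range h'))
    (h2 : ∀ a : Fin r → A, ∑ k, a k • h' k = 0 → ∀ k, ∃ t : A, t ∉ P ∧ t * a k ∈ I) :
    ∃ g : A, g ∉ P ∧ (∀ n : N, g • n ∈ Submodule.span A (Set.range h')) ∧
      ∀ a : Fin r → A, ∑ k, a k • h' k = 0 → ∀ k, g * a k ∈ I := by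
  classical
  obtain ⟨g1, hg1, hg1'⟩ := N2_unif P (⊤ : Submodule A N) (Submodule.span A (Set.range h'))
    Module.Finite.fg_top (fun n _ => h1 n)
  let K : Submodule A (Fin r → A) := LinearMap.ker (Fintype.linearCombination A h')
  have hK : ∀ a : Fin r → A, a ∈ K ↔ ∑ k, a k • h' k = 0 := by
    intro a
    rw [LinearMap.mem_ker, Fintype.linearCombination_apply]
  let Q : Submodule A (Fin r → A) := Submodule.pi Set.univ (fun _ => I)
  obtain ⟨g2, hg2, hg2'⟩ := N2_unif P K Q (IsNoetherian.noetherian K) (by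
    intro a ha
    have h3 := h2 a ((hK a).1 ha)
    choose t ht using h3
    refine ⟨∏ k, t k, ?_, ?_⟩
    · intro hc
      obtain ⟨k, hk, hkP⟩ := Ideal.IsPrime.prod_mem_iff.1 hc
      exact (ht k).1 hkP
    · rw [Submodule.mem_pi]
      intro k _
      have h4 : (∏ k, t k) * a k = (∏ k' ∈ Finset.univ.erase k, t k') * (t k * a k) := by
        rw [← mul_assoc, Finset.prod_erase_mul _ _ (Finset.mem_univ k)]
      have h5 : (∏ k, t k) * a k ∈ I := by
        rw [h4]
        exact I.mul_mem_left _ (ht k).2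
      exact h5)
  refine ⟨g1 * g2, fun hc => ((inferInstance : P.IsPrime).mem_or_mem hc).elim hg1 hg2, ?_, ?_⟩
  · intro n
    rw [mul_comm, mul_smul]
    exact Submodule.smul_mem _ _ (hg1' n trivial)
  · intro a ha k
    have h3 := hg2' a ((hK a).2 ha)
    rw [Submodule.mem_pi] at h3
    have h4 : g2 * a k ∈ I := h3 k trivial
    rw [mul_assoc]
    exact I.mul_mem_left _ h4

/-- the properties at `P`, from a basis of the localized module. -/
private theorem N2_down {A N N' : Type*} [CommRing A] [AddCommGroup N] [Module A N] (P I : Ideal A)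
    [P.IsPrime] [AddCommGroup N'] [Module A N'] [Module (Localization.AtPrime P) N']
    [IsScalarTower A (Localization.AtPrime P) N'] (β : N →ₗ[A] N') [IsLocalizedModule P.primeCompl β]
    {r : ℕ} (h0 : Fin r → N')
    (hi : ∀ a : Fin r → Localization.AtPrime P, (∑ i, a i • h0 i) = 0 →
      ∀ i, a i ∈ I.map (algebraMap A (Localization.AtPrime P)))
    (hs : ∀ g : N', ∃ a : Fin r → Localization.AtPrime P, g = ∑ i, a i • h0 i) :
    ∃ h' : Fin r → N, (∀ n : N, ∃ u : A, u ∉ P ∧ u • n ∈ Submodule.span A (Set.range h')) ∧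
      ∀ a : Fin r → A, ∑ k, a k • h' k = 0 → ∀ k, ∃ t : A, t ∉ P ∧ t * a k ∈ I := by
  have hs0 : ∀ k, ∃ x : N × P.primeCompl, x.2 • h0 k = β x.1 := fun k =>
    IsLocalizedModule.surj P.primeCompl β (h0 k)
  choose x hx using hs0
  have hx' : ∀ k, ((x k).2 : A) • h0 k = β (x k).1 := hx
  refine ⟨fun k => (x k).1, ?_, ?_⟩
  · intro n
    obtain ⟨a, ha⟩ := hs (β n)
    obtain ⟨u, hu, hu'⟩ := N2_sum P (Submodule.map β (Submodule.span A (Set.range fun k => (x k).1)))
      (fun k => a k • h0 k) (by
        intro k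
        obtain ⟨⟨c, d⟩, hcd⟩ := IsLocalization.surj P.primeCompl (a k)
        refine ⟨(d : A) * (x k).2, ?_, ?_⟩
        · intro hc
          exact ((inferInstance : P.IsPrime).mem_or_mem hc).elim d.2 (x k).2.2
        · have e : ((d : A) * (x k).2) • a k • h0 k = c • β (x k).1 := by
            rw [← hx' k, ← algebraMap_smul (Localization.AtPrime P) ((d : A) * (x k).2),
              ← algebraMap_smul (Localization.AtPrime P) c,
              ← algebraMap_smul (Localization.AtPrime P) ((x k).2 : A) (h0 k), smul_smul, smul_smul,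
              map_mul, ← hcd]
            refine congrArg (fun z => z • h0 k) ?_
            ring
          rw [e]
          exact Submodule.smul_mem _ _ (Submodule.mem_map_of_mem (Submodule.subset_span ⟨k, rfl⟩)))
    rw [← ha] at hu'
    obtain ⟨y, hy, hyn⟩ := hu'
    have e1 : β y = β (u • n) := by rw [hyn, map_smul]
    obtain ⟨c, hc⟩ := (IsLocalizedModule.eq_iff_exists P.primeCompl β).1 e1
    refine ⟨(c : A) * u, fun hc' => ((inferInstance : P.IsPrime).mem_or_mem hc').elim c.2 hu, ?_⟩
    have hc2 : (c : A) • y = (c : A) • u • n := hc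
    rw [mul_smul, ← hc2]
    exact Submodule.smul_mem _ _ hy
  · intro a ha k
    have e1 : ∑ k, (algebraMap A (Localization.AtPrime P) (a k * (x k).2)) • h0 k = 0 := by
      rw [← map_zero β, ← ha, map_sum]
      refine Finset.sum_congr rfl fun k _ => ?_
      rw [map_smul, ← hx' k, algebraMap_smul, mul_smul]
    have e2 := hi _ e1 k
    rw [IsLocalization.algebraMap_mem_map_algebraMap_iff P.primeCompl] at e2
    obtain ⟨t, ht, hta⟩ := e2
    refine ⟨t * (x k).2, fun hc => ((inferInstance : P.IsPrime).mem_or_mem hc).elim ht (x k).2.2, ?_⟩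
    have e3 : t * (x k).2 * a k = t * (a k * (x k).2) := by ring
    rw [e3]
    exact hta

/-- from the properties with `g` to a basis at `q`. -/
private theorem N2_up {A N N' : Type*} [CommRing A] [AddCommGroup N] [Module A N] (q I : Ideal A)
    [q.IsPrime] [AddCommGroup N'] [Module A N'] [Module (Localization.AtPrime q) N']
    [IsScalarTower A (Localization.AtPrime q) N'] (β : N →ₗ[A] N') [IsLocalizedModule q.primeCompl β]
    {r : ℕ} (h' : Fin r → N) (g : A) (hg : g ∉ q)
    (h1 : ∀ n : N, g • n ∈ Submodule.span A (Set.range h'))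
    (h2 : ∀ a : Fin r → A, ∑ k, a k • h' k = 0 → ∀ k, g * a k ∈ I) :
    (∀ a : Fin r → Localization.AtPrime q, (∑ i, a i • β (h' i)) = 0 →
      ∀ i, a i ∈ I.map (algebraMap A (Localization.AtPrime q))) ∧
    (∀ f : N', ∃ a : Fin r → Localization.AtPrime q, f = ∑ i, a i • β (h' i)) := by
  classical
  have hun : ∀ y : A, y ∉ q → IsUnit (algebraMap A (Localization.AtPrime q) y) := fun y hy =>
    IsLocalization.map_units (M := q.primeCompl) _ ⟨y, hy⟩
  constructor
  · intro a ha i
    obtain ⟨s, hs⟩ := IsLocalization.exist_integer_multiples_of_finite q.primeCompl a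
    have hs' : ∀ k, ∃ b : A, algebraMap A (Localization.AtPrime q) b = (s : A) • a k := fun k => hs k
    choose b hb using hs'
    have e1 : β (∑ k, b k • h' k) = β 0 := by
      rw [map_sum, map_zero]
      have e2 : ∑ k, β (b k • h' k) = (s : A) • ∑ i, a i • β (h' i) := by
        rw [Finset.smul_sum]
        refine Finset.sum_congr rfl fun k _ => ?_
        rw [map_smul, ← algebraMap_smul (Localization.AtPrime q) (b k), hb k, smul_assoc]
      rw [e2, ha, smul_zero]
    obtain ⟨t, ht⟩ := (IsLocalizedModule.eq_iff_exists q.primeCompl β).1 e1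
    have ht' : (t : A) • ∑ k, b k • h' k = (t : A) • (0 : N) := ht
    have e3 : ∑ k, ((t : A) * b k) • h' k = 0 := by
      rw [smul_zero, Finset.smul_sum] at ht'
      rw [← ht']
      refine Finset.sum_congr rfl fun k _ => ?_
      rw [mul_smul]
    have e4 := h2 _ e3 i
    have e5 : algebraMap A (Localization.AtPrime q) (g * ((t : A) * b i))
        ∈ I.map (algebraMap A (Localization.AtPrime q)) := Ideal.mem_map_of_mem _ e4
    have e6 : algebraMap A (Localization.AtPrime q) (g * ((t : A) * b i))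
        = algebraMap A (Localization.AtPrime q) (g * t * s) * a i := by
      rw [map_mul, map_mul, hb i, Algebra.smul_def, map_mul, map_mul]
      ring
    rw [e6] at e5
    have hu : IsUnit (algebraMap A (Localization.AtPrime q) (g * t * s)) := by
      refine hun _ fun hc => ?_
      rcases (inferInstance : q.IsPrime).mem_or_mem hc with hc | hc
      · rcases (inferInstance : q.IsPrime).mem_or_mem hc with hc | hc
        · exact hg hc
        · exact t.2 hc
      · exact s.2 hc
    obtain ⟨w, hw⟩ := hu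
    have e7 : a i = (↑(w⁻¹) : Localization.AtPrime q) * (algebraMap A (Localization.AtPrime q) (g * t * s) * a i) := by
      rw [← hw, ← mul_assoc, Units.inv_mul, one_mul]
    rw [e7]
    exact Ideal.mul_mem_left _ _ e5
  · intro f
    obtain ⟨⟨n, s⟩, hn⟩ := IsLocalizedModule.surj q.primeCompl β f
    have hn' : (s : A) • f = β n := hn
    have e1 := h1 n
    rw [Submodule.mem_span_range_iff_exists_fun] at e1
    obtain ⟨c, hc⟩ := e1
    have e2 : algebraMap A (Localization.AtPrime q) (g * s) • f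
        = ∑ k, (algebraMap A (Localization.AtPrime q) (c k)) • β (h' k) := by
      rw [algebraMap_smul, mul_smul, hn', ← map_smul, ← hc, map_sum]
      refine Finset.sum_congr rfl fun k _ => ?_
      rw [map_smul, algebraMap_smul]
    have hu : IsUnit (algebraMap A (Localization.AtPrime q) (g * s)) :=
      hun _ fun hc => ((inferInstance : q.IsPrime).mem_or_mem hc).elim hg s.2
    obtain ⟨w, hw⟩ := hu
    refine ⟨fun k => (↑(w⁻¹) : Localization.AtPrime q) * algebraMap A (Localization.AtPrime q) (c k), ?_⟩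
    have e3 : f = (↑(w⁻¹) : Localization.AtPrime q) • (algebraMap A (Localization.AtPrime q) (g * s) • f) := by
      rw [← hw, smul_smul, Units.inv_mul, one_smul]
    rw [e3, e2, Finset.smul_sum]
    refine Finset.sum_congr rfl fun k _ => ?_
    rw [smul_smul]

theorem N2_spread {A : Type u} [CommRing A] [IsNoetherianRing A] (P : Ideal A) [P.IsPrime]
    (I : Ideal A) (r : ℕ) (h : NF (I.map (algebraMap A (Localization.AtPrime P))) r) :
    ∃ g : A, g ∉ P ∧ ∀ (q : Ideal A) [q.IsPrime], g ∉ q →
      NF (I.map (algebraMap A (Localization.AtPrime q))) r := by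
  obtain ⟨h0, hb⟩ := h
  have hfP : Module.Flat A (Localization.AtPrime P) := IsLocalization.flat _ P.primeCompl
  obtain ⟨β, hβ, -⟩ := FB_baseChange (S := Localization.AtPrime P) I
  have hloc : IsLocalizedModule P.primeCompl β :=
    (isLocalizedModule_iff_isBaseChange P.primeCompl (Localization.AtPrime P) β).2 hβ
  obtain ⟨h', h1, h2⟩ := N2_down P I β h0 hb.indep hb.span
  have hfin : Module.Finite A (I →ₗ[A] (A ⧸ I)) :=
    Module.IsNoetherian.finite A (I →ₗ[A] (A ⧸ I))
  obtain ⟨g, hg, hg1, hg2⟩ := N2_gen P I h' h1 h2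
  refine ⟨g, hg, fun q hq hgq => ?_⟩
  have hfq : Module.Flat A (Localization.AtPrime q) := IsLocalization.flat _ q.primeCompl
  obtain ⟨γ, hγ, -⟩ := FB_baseChange (S := Localization.AtPrime q) I
  have hlocq : IsLocalizedModule q.primeCompl γ :=
    (isLocalizedModule_iff_isBaseChange q.primeCompl (Localization.AtPrime q) γ).2 hγ
  obtain ⟨h3, h4⟩ := N2_up q I γ h' g hgq hg1 hg2
  exact ⟨fun k => γ (h' k), ⟨h3, h4⟩⟩

end Pool.Agent.Lib.H78C
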