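import Pool.Agent.Lib.H78C.Defs
import Pool.Agent.Lib.H78C.A1

/-!
# P1: faithfully flat descent of finite projective dimension, by induction on `n` with A1_shift.
A finite module `M` with `S ⊗ M` projective is flat by descent, so projective.
-/

set_option autoImplicit false
open CategoryTheory IsLocalRing TensorProduct
open Pool.Agent.Lib.Helper92 Pool.Agent.Lib.H44V

namespace Pool.Agent.Lib.H78C
universe u

theorem P1_descent {L S : Type u} [CommRing L] [CommRing S] [Algebra L S] [IsNoetherianRing L]
    [Module.FaithfullyFlat L S] (n : ℕ) :
    ∀ (M : Type u) [AddCommGroup M] [Module L M] [Module.Finite L M],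
      PD S (S ⊗[L] M) n → PD L M n := by
  induction n with
  | zero =>
    intro M _ _ _ h
    rw [A1_zero] at h ⊢
    exact (Module.FaithfullyFlat.subsingleton_tensorProduct_iff_right L S).1 h
  | succ n ih =>
    intro M _ _ _ h
    cases n with
    | zero =>
      change PD S (S ⊗[L] M) 1 at h
      change PD L M 1
      rw [A1_one] at h ⊢
      have h1 : Module.Flat S (S ⊗[L] M) := Module.Flat.of_projective
      have h2 : Module.Flat L M := Module.Flat.of_flat_tensorProduct L M S
      have h3 : Module.FinitePresentation L M := Module.finitePresentation_of_finite L M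
      exact Module.Flat.projective_of_finitePresentation
    | succ n =>
      change PD S (S ⊗[L] M) (n + 2) at h
      change PD L M (n + 2)
      obtain ⟨k, f, hf⟩ := Module.Finite.exists_fin' L M
      have hsurj : Function.Surjective (f.baseChange S) := LinearMap.lTensor_surjective _ hf
      rw [A1_shift (f.baseChange S) hsurj n] at h
      rw [A1_shift f hf n]
      refine ih (LinearMap.ker f) ?_
      exact A1_equiv (LinearMap.tensorKerEquiv S S f).symm (n + 1) h

end Pool.Agent.Lib.H78C
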