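import Pool.Agent.Lib.H78C.Defs
import Pool.Agent.Lib.H78C.A1

/-!
# P2: spreading out finite projective dimension, by induction on `n` with A1_shift.
`n = 0`: support; `n = 1`: `Module.freeLocus` is open; `n + 2`: pass to the kernel of a surjection
from a finite free module.
-/

set_option autoImplicit false
open CategoryTheory IsLocalRing TensorProduct
open Pool.Agent.Lib.Helper92 Pool.Agent.Lib.H44V

namespace Pool.Agent.Lib.H78C
universe u

private theorem p2_subs {A : Type u} [CommRing A] (Q : Ideal A) [Q.IsPrime] (M : Type u) [AddCommGroup M]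
    [Module A M] : Subsingleton (Localization.AtPrime Q ⊗[A] M) ↔ Subsingleton (LocalizedModule Q.primeCompl M) :=
  (LocalizedModule.equivTensorProduct Q.primeCompl M).symm.toEquiv.subsingleton_congr

private theorem p2_shift {A : Type u} [CommRing A] (Q : Ideal A) [Q.IsPrime] {M : Type u} [AddCommGroup M]
    [Module A M] {m : ℕ} (f : (Fin m → A) →ₗ[A] M) (hf : Function.Surjective f) (n : ℕ) :
    PD (Localization.AtPrime Q) (Localization.AtPrime Q ⊗[A] M) (n + 2) ↔
      PD (Localization.AtPrime Q) (Localization.AtPrime Q ⊗[A] LinearMap.ker f) (n + 1) := by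
  have : Module.Flat A (Localization.AtPrime Q) := IsLocalization.flat _ Q.primeCompl
  have hs : Function.Surjective (AlgebraTensorModule.lTensor (Localization.AtPrime Q) (Localization.AtPrime Q) f) :=
    LinearMap.lTensor_surjective _ hf
  rw [A1_shift _ hs n]
  exact ⟨A1_equiv (LinearMap.tensorKerEquiv (Localization.AtPrime Q) (Localization.AtPrime Q) f).symm (n + 1),
    A1_equiv (LinearMap.tensorKerEquiv (Localization.AtPrime Q) (Localization.AtPrime Q) f) (n + 1)⟩

theorem P2_spread {A : Type u} [CommRing A] [IsNoetherianRing A] (P : Ideal A) [P.IsPrime]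
    (n : ℕ) :
    ∀ (M : Type u) [AddCommGroup M] [Module A M] [Module.Finite A M],
      PD (Localization.AtPrime P) (Localization.AtPrime P ⊗[A] M) n →
      ∃ g : A, g ∉ P ∧ ∀ (q : Ideal A) [q.IsPrime], g ∉ q →
        PD (Localization.AtPrime q) (Localization.AtPrime q ⊗[A] M) n := by
  induction n using Nat.twoStepInduction with
  | zero =>
    intro M _ _ _ h
    rw [A1_zero, p2_subs] at h
    have h1 : (⟨P, inferInstance⟩ : PrimeSpectrum A) ∉ Module.support A M := Module.notMem_support_iff.2 h
    rw [Module.mem_support_iff_of_finite] at h1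
    obtain ⟨g, hg, hgP⟩ := Set.not_subset.1 h1
    refine ⟨g, hgP, fun q _ hgq => ?_⟩
    rw [A1_zero, p2_subs]
    have h2 : (⟨q, inferInstance⟩ : PrimeSpectrum A) ∉ Module.support A M := by
      rw [Module.mem_support_iff_of_finite]
      exact fun h3 => hgq (h3 hg)
    exact Module.notMem_support_iff.1 h2
  | one =>
    intro M _ _ _ h
    rw [A1_one] at h
    have hfree : Module.Free (Localization.AtPrime P) (Localization.AtPrime P ⊗[A] M) :=
      Module.free_of_flat_of_isLocalRing
    have hfp : Module.FinitePresentation A M := Module.finitePresentation_of_finite A M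
    have h1 : (⟨P, inferInstance⟩ : PrimeSpectrum A) ∈ Module.freeLocus A M :=
      (Module.mem_freeLocus_iff_tensor _ (Localization.AtPrime P)).2 hfree
    obtain ⟨_, ⟨g, rfl⟩, hg1, hg2⟩ :=
      PrimeSpectrum.isTopologicalBasis_basic_opens.exists_subset_of_mem_open h1 Module.isOpen_freeLocus
    refine ⟨g, hg1, fun q _ hgq => ?_⟩
    rw [A1_one]
    have h2 : (⟨q, inferInstance⟩ : PrimeSpectrum A) ∈ Module.freeLocus A M := hg2 hgq
    have h3 : Module.Free (Localization.AtPrime q) (Localization.AtPrime q ⊗[A] M) :=
      (Module.mem_freeLocus_iff_tensor _ (Localization.AtPrime q)).1 h2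
    exact inferInstance
  | more n _ ih =>
    intro M _ _ _ h
    obtain ⟨m, f, hf⟩ := Module.Finite.exists_fin' A M
    rw [p2_shift P f hf n] at h
    obtain ⟨g, hgP, hg⟩ := ih (LinearMap.ker f) h
    exact ⟨g, hgP, fun q _ hgq => (p2_shift q f hf n).2 (hg q hgq)⟩

end Pool.Agent.Lib.H78C
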