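import Pool.Agent.Lib.H78C.Defs

/-!
# Q1: a prime of positive residue characteristic in a given open set.
`B = (A/P)[1/(gN)]` is a nonzero finitely generated `ℤ`-algebra; `B/𝔫` is a field, finite over `ℤ`
(`finite_of_finite_type_of_isJacobsonRing`), so it has positive characteristic `p`, and `p ∤ N`.
-/

set_option autoImplicit false
open CategoryTheory IsLocalRing TensorProduct
open Pool.Agent.Lib.Helper92 Pool.Agent.Lib.H44V

namespace Pool.Agent.Lib.H78C
universe u

private theorem q1_jac : IsJacobsonRing ℤ := by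
  rw [isJacobsonRing_iff_prime_eq]
  intro P hP
  by_cases hb : P = ⊥
  · subst hb
    refine le_antisymm (fun x hx => ?_) Ideal.le_jacobson
    rw [Ideal.mem_jacobson_bot] at hx
    rw [Ideal.mem_bot]
    have h1 := Int.isUnit_iff.1 (hx (3 * x))
    rcases h1 with h1 | h1 <;> nlinarith [sq_nonneg x]
  · have := IsPrime.to_maximal_ideal hb
    exact Ideal.jacobson_eq_self_of_isMaximal

private theorem q1_field (K : Type u) [Field K] (f : ℤ →+* K) (hf : f.FiniteType) :
    ∃ p : ℕ, p.Prime ∧ (p : K) = 0 := by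
  have := q1_jac
  let _ := f.toAlgebra
  have hft : Algebra.FiniteType ℤ K := hf
  have hfin := finite_of_finite_type_of_isJacobsonRing ℤ K
  obtain ⟨p, hp⟩ := CharP.exists K
  have hp0 : p ≠ 0 := by
    rintro rfl
    have : CharZero K := CharP.charP_to_charZero _
    have hinj : Function.Injective (algebraMap ℤ K) := RingHom.injective_int _
    have hint : Algebra.IsIntegral ℤ K := @Algebra.IsIntegral.of_finite ℤ K _ _ _ hfin
    exact Int.not_isField (isField_of_isIntegral_of_isField hinj (Field.toIsField _))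
  exact ⟨p, (CharP.char_is_prime_or_zero K p).resolve_right hp0, CharP.cast_eq_zero _ p⟩

theorem Q1_exists {A : Type u} [CommRing A] [Algebra.FiniteType ℤ A] (P : Ideal A) [P.IsPrime]
    (hP : ∀ n : ℕ, n ≠ 0 → (n : A) ∉ P) (g : A) (hg : g ∉ P) (N : ℕ) (hN : N ≠ 0) :
    ∃ (q : Ideal A) (p : ℕ), q.IsPrime ∧ P ≤ q ∧ g ∉ q ∧ p.Prime ∧ (p : A) ∈ q ∧ p.Coprime N := by
  classical
  obtain ⟨x, hxdef⟩ : ∃ x : A ⧸ P, x = Ideal.Quotient.mk P (g * N) := ⟨_, rfl⟩
  have hx : x ≠ 0 := by
    intro h
    rw [hxdef, Ideal.Quotient.eq_zero_iff_mem] at h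
    rcases (Ideal.IsPrime.mem_or_mem ‹P.IsPrime› h) with h | h
    · exact hg h
    · exact hP N hN h
  have hdom : IsDomain (Localization.Away x) :=
    IsLocalization.isDomain_localization (powers_le_nonZeroDivisors_of_noZeroDivisors hx)
  obtain ⟨n, hn⟩ := Ideal.exists_maximal (Localization.Away x)
  obtain ⟨p, hpp, hp0⟩ : ∃ p : ℕ, p.Prime ∧ (p : Localization.Away x ⧸ n) = 0 := by
    have h1 : (algebraMap ℤ A).FiniteType := by
      rw [RingHom.finiteType_algebraMap]; infer_instance
    have h2 : (Ideal.Quotient.mk P).FiniteType :=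
      RingHom.FiniteType.of_surjective _ Ideal.Quotient.mk_surjective
    have h3 : (algebraMap (A ⧸ P) (Localization.Away x)).FiniteType := by
      rw [RingHom.finiteType_algebraMap]
      exact IsLocalization.finiteType_of_monoid_fg (Submonoid.powers x) _
    have h4 : (Ideal.Quotient.mk n).FiniteType :=
      RingHom.FiniteType.of_surjective _ Ideal.Quotient.mk_surjective
    have h5 := h4.comp (h3.comp (h2.comp h1))
    exact @q1_field _ (Ideal.Quotient.field n) _ h5
  have hxu : IsUnit (algebraMap (A ⧸ P) (Localization.Away x) x) :=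
    IsLocalization.Away.algebraMap_isUnit x
  obtain ⟨φ, hφ⟩ : ∃ φ : A →+* Localization.Away x,
      φ = (algebraMap (A ⧸ P) (Localization.Away x)).comp (Ideal.Quotient.mk P) := ⟨_, rfl⟩
  have hgN : IsUnit (φ (g * N)) := by
    rw [hφ, RingHom.comp_apply, ← hxdef]
    exact hxu
  rw [map_mul, IsUnit.mul_iff] at hgN
  have hnp := hn.isPrime
  refine ⟨n.comap φ, p, Ideal.comap_isPrime φ n, ?_, ?_, hpp, ?_, ?_⟩
  · intro a ha
    rw [Ideal.mem_comap, hφ, RingHom.comp_apply, Ideal.Quotient.eq_zero_iff_mem.2 ha, map_zero]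
    exact n.zero_mem
  · intro h
    rw [Ideal.mem_comap] at h
    exact hn.ne_top (Ideal.eq_top_of_isUnit_mem _ h hgN.1)
  · rw [Ideal.mem_comap, map_natCast, ← Ideal.Quotient.eq_zero_iff_mem, map_natCast]
    exact hp0
  · rw [Nat.Prime.coprime_iff_not_dvd hpp]
    rintro ⟨m, rfl⟩
    refine hn.ne_top (Ideal.eq_top_of_isUnit_mem _ ?_ hgN.2)
    rw [map_natCast, ← Ideal.Quotient.eq_zero_iff_mem, map_natCast, Nat.cast_mul, hp0, zero_mul]

end Pool.Agent.Lib.H78C
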