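import Pool.Agent.Lib.H78C.Defs

/-!
# T1: almost all primes are nonzerodivisors on a finite module.
The submodule of `ℤ`-torsion elements is finitely generated, so it is killed by one `N ≠ 0`.
-/

set_option autoImplicit false
open CategoryTheory IsLocalRing TensorProduct
open Pool.Agent.Lib.Helper92 Pool.Agent.Lib.H44V

namespace Pool.Agent.Lib.H78C
universe u

theorem T1_regular {A : Type u} [CommRing A] [IsNoetherianRing A] (W : Type u) [AddCommGroup W]
    [Module A W] [Module.Finite A W] :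
    ∃ N : ℕ, N ≠ 0 ∧ ∀ p : ℕ, p.Coprime N → IsSMulRegular W (p : A) := by
  classical
  let T : Submodule A W :=
    { carrier := {w | ∃ n : ℕ, n ≠ 0 ∧ (n : A) • w = 0}
      add_mem' := by
        rintro a b ⟨n, hn, ha⟩ ⟨m, hm, hb⟩
        refine ⟨n * m, Nat.mul_ne_zero hn hm, ?_⟩
        rw [smul_add, Nat.cast_mul]
        have h1 : ((n : A) * (m : A)) • a = 0 := by
          rw [mul_comm, mul_smul, ha, smul_zero]
        have h2 : ((n : A) * (m : A)) • b = 0 := by
          rw [mul_smul, hb, smul_zero]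
        rw [h1, h2, add_zero]
      zero_mem' := ⟨1, one_ne_zero, smul_zero _⟩
      smul_mem' := by
        rintro c a ⟨n, hn, ha⟩
        refine ⟨n, hn, ?_⟩
        rw [smul_comm, ha, smul_zero] }
  have : IsNoetherian A W := isNoetherian_of_isNoetherianRing_of_finite A W
  obtain ⟨s, hs⟩ : T.FG := IsNoetherian.noetherian T
  have hmem : ∀ w ∈ s, ∃ n : ℕ, n ≠ 0 ∧ (n : A) • w = 0 := by
    intro w hw
    have h : w ∈ T := by
      rw [← hs]
      exact Submodule.subset_span hw
    exact h
  choose! n hn0 hn using hmem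
  have hkill : ∀ w ∈ T, ((∏ x ∈ s, n x : ℕ) : A) • w = 0 := by
    intro w hw
    rw [← hs] at hw
    induction hw using Submodule.span_induction with
    | mem x hx =>
      have hx' : x ∈ s := hx
      obtain ⟨c, hc⟩ := Finset.dvd_prod_of_mem n hx'
      rw [hc, mul_comm, Nat.cast_mul, mul_smul, hn x hx', smul_zero]
    | zero => exact smul_zero _
    | add x y _ _ hx hy => rw [smul_add, hx, hy, add_zero]
    | smul c x _ hx => rw [smul_comm, hx, smul_zero]
  refine ⟨2 * ∏ x ∈ s, n x, ?_, ?_⟩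
  · refine Nat.mul_ne_zero two_ne_zero ?_
    exact Finset.prod_ne_zero_iff.mpr fun x hx => hn0 x hx
  · intro p hp
    have hp0 : p ≠ 0 := by
      rintro rfl
      have h1 : 2 * ∏ x ∈ s, n x = 1 := by simpa using hp
      omega
    have hcop : p.Coprime (∏ x ∈ s, n x) := Nat.Coprime.coprime_mul_left_right hp
    have key : ∀ w : W, (p : A) • w = 0 → w = 0 := by
      intro w hw
      have h1 : ((∏ x ∈ s, n x : ℕ) : A) • w = 0 := hkill w ⟨p, hp0, hw⟩
      have h2 : (Nat.gcd p (∏ x ∈ s, n x) : ℤ) = p * Nat.gcdA p (∏ x ∈ s, n x) +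
          (∏ x ∈ s, n x : ℕ) * Nat.gcdB p (∏ x ∈ s, n x) := Nat.gcd_eq_gcd_ab _ _
      rw [Nat.Coprime.gcd_eq_one hcop] at h2
      have h3 : (1 : A) = (p : A) * ((Nat.gcdA p (∏ x ∈ s, n x) : ℤ) : A) +
          ((∏ x ∈ s, n x : ℕ) : A) * ((Nat.gcdB p (∏ x ∈ s, n x) : ℤ) : A) := by
        have h4 := congrArg (fun z : ℤ => (z : A)) h2
        simpa only [Nat.cast_one, Int.cast_one, Int.cast_add, Int.cast_mul, Int.cast_natCast] using h4
      calc w = (1 : A) • w := (one_smul A w).symm
        _ = 0 := by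
          rw [h3, add_smul, mul_comm, mul_smul, hw, smul_zero, mul_comm, mul_smul, h1, smul_zero,
            add_zero]
    intro a b hab
    have h5 : (p : A) • (a - b) = 0 := by
      rw [smul_sub]
      exact sub_eq_zero.mpr hab
    exact sub_eq_zero.mp (key _ h5)

end Pool.Agent.Lib.H78C
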