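import Pool.Agent.Lib.H78C.Defs

/-!
# W1: lifting homomorphisms modulo a nonzerodivisor.
`W = (A/I)^c / T (A/I)^b` for the matrix `T` of relations of generators of `I`; `S ⊗ W` is the same
module for `I S`.  Given `φ`, lift the values on the generators to `y ∈ S^b`; then
`T y ∈ x S^c + I S^c`, so `T y = x z`, `z = T y'` and `y - x y'` defines the lift.
-/

set_option autoImplicit false
open CategoryTheory IsLocalRing TensorProduct
open Pool.Agent.Lib.Helper92 Pool.Agent.Lib.H44V

namespace Pool.Agent.Lib.H78C
universe u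

/-- the submodule `rho S^b + I S^c` of `S^c`, for a matrix `r` over `A`. -/
private def w1N {A : Type u} [CommRing A] {b c : ℕ} (r : Fin c → Fin b → A) (I : Ideal A)
    (S : Type u) [CommRing S] [Algebra A S] : Submodule S (Fin c → S) where
  carrier := {v | ∃ (y : Fin b → S) (w : Fin c → S), (∀ j, w j ∈ I.map (algebraMap A S)) ∧
    ∀ j, v j = (∑ i, algebraMap A S (r j i) * y i) + w j}
  add_mem' := by
    rintro v v' ⟨y, w, hw, h⟩ ⟨y', w', hw', h'⟩
    refine ⟨y + y', w + w', fun j => Ideal.add_mem _ (hw j) (hw' j), fun j => ?_⟩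
    simp only [Pi.add_apply, h j, h' j, mul_add, Finset.sum_add_distrib]
    ring
  zero_mem' := ⟨0, 0, fun j => Ideal.zero_mem _, fun j => by simp⟩
  smul_mem' := by
    rintro s v ⟨y, w, hw, h⟩
    refine ⟨s • y, s • w, fun j => Ideal.mul_mem_left _ _ (hw j), fun j => ?_⟩
    simp only [Pi.smul_apply, smul_eq_mul, h j, mul_add, Finset.mul_sum]
    congr 1
    refine Finset.sum_congr rfl fun i _ => ?_
    ring

/-- the natural map `A^c / N_A → S^c / N_S`. -/
private noncomputable def w1Map {A : Type u} [CommRing A] {b c : ℕ} (r : Fin c → Fin b → A)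
    (I : Ideal A) (S : Type u) [CommRing S] [Algebra A S] :
    ((Fin c → A) ⧸ w1N r I A) →ₗ[A] ((Fin c → S) ⧸ w1N r I S) :=
  Submodule.liftQ (w1N r I A)
    (((Submodule.mkQ (w1N r I S)).restrictScalars A).comp
      (LinearMap.compLeft (Algebra.linearMap A S) (Fin c)))
    (by
      rintro v ⟨y, w, hw, h⟩
      rw [LinearMap.mem_ker]
      simp only [LinearMap.comp_apply, LinearMap.restrictScalars_apply, Submodule.mkQ_apply,
        Submodule.Quotient.mk_eq_zero]
      refine ⟨fun i => algebraMap A S (y i), fun j => algebraMap A S (w j), fun j => ?_,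
        fun j => ?_⟩
      · have := hw j
        rw [Algebra.algebraMap_self, Ideal.map_id] at this
        exact Ideal.mem_map_of_mem _ this
      · simp only [LinearMap.compLeft_apply, Function.comp, Algebra.linearMap_apply]
        rw [h j, map_add, map_sum]
        simp)

private lemma w1Map_mk {A : Type u} [CommRing A] {b c : ℕ} (r : Fin c → Fin b → A)
    (I : Ideal A) (S : Type u) [CommRing S] [Algebra A S] (v : Fin c → A) :
    w1Map r I S (Submodule.Quotient.mk v) =
      Submodule.Quotient.mk (fun j => algebraMap A S (v j)) := rfl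

/-- regularity is inherited by `S^c / N_S`. -/
private lemma w1_reg {A : Type u} [CommRing A] {b c : ℕ} (r : Fin c → Fin b → A)
    (I : Ideal A) (x : A) (hx : IsSMulRegular ((Fin c → A) ⧸ w1N r I A) x)
    (S : Type u) [CommRing S] [Algebra A S] [Module.Flat A S]
    (z : Fin c → S) (hz : algebraMap A S x • z ∈ w1N r I S) : z ∈ w1N r I S := by
  classical
  set W := (Fin c → A) ⧸ w1N r I A with hW
  let e : Fin c → W := fun j => Submodule.Quotient.mk (Pi.single j 1)
  let t : (Fin c → S) →ₗ[A] (S ⊗[A] W) :=
    { toFun := fun v => ∑ j, v j ⊗ₜ[A] e j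
      map_add' := by
        intro v v'
        simp [TensorProduct.add_tmul, Finset.sum_add_distrib]
      map_smul' := by
        intro s v
        simp [Finset.smul_sum, TensorProduct.smul_tmul'] }
  have hIW : ∀ a ∈ I, ∀ w : W, a • w = 0 := by
    intro a ha w
    obtain ⟨v, rfl⟩ := Submodule.Quotient.mk_surjective _ w
    rw [← Submodule.Quotient.mk_smul, Submodule.Quotient.mk_eq_zero]
    refine ⟨0, a • v, fun j => ?_, fun j => by simp⟩
    rw [Algebra.algebraMap_self, Ideal.map_id]
    exact Ideal.mul_mem_right _ _ ha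
  have hIt : ∀ s ∈ I.map (algebraMap A S), ∀ w : W, s ⊗ₜ[A] w = (0 : S ⊗[A] W) := by
    intro s hs w
    refine Submodule.span_induction (p := fun s _ => s ⊗ₜ[A] w = (0 : S ⊗[A] W)) ?_ ?_ ?_ ?_ hs
    · rintro _ ⟨a, ha, rfl⟩
      rw [Algebra.algebraMap_eq_smul_one, TensorProduct.smul_tmul, hIW a ha, TensorProduct.tmul_zero]
    · exact TensorProduct.zero_tmul _ _
    · intro s s' _ _ h h'
      rw [TensorProduct.add_tmul, h, h', add_zero]
    · intro q s _ h
      have : (q • s) ⊗ₜ[A] w = q • (s ⊗ₜ[A] w : S ⊗[A] W) := by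
        rw [TensorProduct.smul_tmul']
      rw [this, h, smul_zero]
  have hrel : ∀ i, ∑ j, r j i • e j = 0 := by
    intro i
    have : ∑ j, r j i • e j = (Submodule.Quotient.mk (fun j => r j i) : W) := by
      have h0 : (fun j => r j i) = ∑ j, r j i • (Pi.single j (1 : A) : Fin c → A) := by
        ext j
        simp [Finset.sum_apply, Pi.single_apply]
      conv_rhs => rw [h0]
      rw [← Submodule.mkQ_apply, map_sum]
      rfl
    rw [this, Submodule.Quotient.mk_eq_zero]
    refine ⟨Pi.single i 1, 0, fun j => Ideal.zero_mem _, fun j => ?_⟩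
    simp [Pi.single_apply]
  have ht : ∀ v ∈ w1N r I S, t v = 0 := by
    rintro v ⟨y, w, hw, h⟩
    have h0 : t v = ∑ j, ((∑ i, algebraMap A S (r j i) * y i) + w j) ⊗ₜ[A] e j := by
      change ∑ j, v j ⊗ₜ[A] e j = _
      exact Finset.sum_congr rfl fun j _ => by rw [h j]
    rw [h0]
    have h1 : ∀ j, ((∑ i, algebraMap A S (r j i) * y i) + w j) ⊗ₜ[A] e j =
        ∑ i, y i ⊗ₜ[A] (r j i • e j) := by
      intro j
      rw [TensorProduct.add_tmul, hIt _ (hw j), add_zero, TensorProduct.sum_tmul]
      refine Finset.sum_congr rfl fun i _ => ?_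
      rw [← Algebra.smul_def, TensorProduct.smul_tmul]
    rw [Finset.sum_congr rfl fun j _ => h1 j, Finset.sum_comm]
    refine Finset.sum_eq_zero fun i _ => ?_
    rw [← TensorProduct.tmul_sum, hrel i, TensorProduct.tmul_zero]
  have hreg : IsSMulRegular (S ⊗[A] W) x := IsSMulRegular.lTensor _ hx
  have h1 : t z = 0 := by
    have h2 : t (algebraMap A S x • z) = x • t z := by
      rw [algebraMap_smul, map_smul]
    have h3 : x • t z = x • (0 : S ⊗[A] W) := by
      rw [← h2, ht _ hz, smul_zero]
    exact hreg h3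
  let B : (S ⊗[A] W) →ₗ[S] ((Fin c → S) ⧸ w1N r I S) := LinearMap.liftBaseChange S (w1Map r I S)
  have h2 : B (t z) = Submodule.Quotient.mk z := by
    have h3 : B (t z) = ∑ j, z j • w1Map r I S (e j) := by
      change B (∑ j, z j ⊗ₜ[A] e j) = _
      rw [map_sum]
      rfl
    have h4 : ∀ j, w1Map r I S (e j) =
        Submodule.Quotient.mk (Pi.single j (1 : S) : Fin c → S) := by
      intro j
      rw [w1Map_mk]
      congr 1
      ext k
      by_cases hk : k = j
      · subst hk; simp
      · simp [hk]
    rw [h3, Finset.sum_congr rfl fun j _ => by rw [h4 j]]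
    have h0 : z = ∑ j, z j • (Pi.single j (1 : S) : Fin c → S) := by
      ext j
      simp [Finset.sum_apply, Pi.single_apply]
    conv_rhs => rw [h0]
    rw [← Submodule.mkQ_apply, map_sum]
    rfl
  rw [h1, map_zero] at h2
  exact (Submodule.Quotient.mk_eq_zero _).1 h2.symm

/-- relations over a flat algebra come from relations over the base. -/
private lemma w1_rel {A : Type u} [CommRing A] {b c : ℕ} (g : Fin b → A) (r : Fin c → Fin b → A)
    (hr : ∀ a : Fin b → A, ∑ i, a i * g i = 0 → ∃ l : Fin c → A, ∀ i, a i = ∑ j, l j * r j i)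
    (S : Type u) [CommRing S] [Algebra A S] [Module.Flat A S]
    (s : Fin b → S) (hs : ∑ i, s i * algebraMap A S (g i) = 0) :
    ∃ l : Fin c → S, ∀ i, s i = ∑ j, l j * algebraMap A S (r j i) := by
  classical
  have h0 : ∑ i, g i • s i = 0 := by
    rw [← hs]
    exact Finset.sum_congr rfl fun i _ => by rw [Algebra.smul_def, mul_comm]
  obtain ⟨k, a, y, h1, h2⟩ := Module.Flat.isTrivialRelation_of_sum_smul_eq_zero (R := A) (M := S)
    (f := g) (x := s) h0
  have h3 : ∀ q : Fin k, ∃ l : Fin c → A, ∀ i, a i q = ∑ j, l j * r j i := by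
    intro q
    refine hr (fun i => a i q) ?_
    rw [← h2 q]
    exact Finset.sum_congr rfl fun i _ => mul_comm _ _
  choose l hl using h3
  refine ⟨fun j => ∑ q, algebraMap A S (l q j) * y q, fun i => ?_⟩
  rw [h1 i]
  have h4 : ∀ q, a i q • y q = ∑ j, algebraMap A S (l q j) * y q * algebraMap A S (r j i) := by
    intro q
    rw [Algebra.smul_def, hl q i, map_sum, Finset.sum_mul]
    refine Finset.sum_congr rfl fun j _ => ?_
    rw [map_mul]
    ring
  rw [Finset.sum_congr rfl fun q _ => h4 q, Finset.sum_comm]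
  exact Finset.sum_congr rfl fun j _ => by rw [Finset.sum_mul]

theorem W1_lift {A : Type u} [CommRing A] [IsNoetherianRing A] (I : Ideal A) :
    ∃ (W : Type u) (_ : AddCommGroup W) (_ : Module A W), Module.Finite A W ∧
      ∀ x : A, IsSMulRegular W x →
        ∀ (S : Type u) [CommRing S] [Algebra A S] [Module.Flat A S],
          Lft (I.map (algebraMap A S)) (algebraMap A S x) := by
  classical
  -- generators
  obtain ⟨b, g, hg⟩ : ∃ (b : ℕ) (g : Fin b → A), I = Ideal.span (Set.range g) := by
    obtain ⟨b, g, h⟩ := (Submodule.fg_iff_exists_fin_generating_family (N := I)).1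
      (IsNoetherian.noetherian I)
    exact ⟨b, g, h.symm⟩
  -- relations
  let R0 : Submodule A (Fin b → A) := LinearMap.ker (Fintype.linearCombination A g)
  obtain ⟨c, r, hr0⟩ := (Submodule.fg_iff_exists_fin_generating_family (N := R0)).1
    (IsNoetherian.noetherian R0)
  have hr : ∀ a : Fin b → A, ∑ i, a i * g i = 0 →
      ∃ l : Fin c → A, ∀ i, a i = ∑ j, l j * r j i := by
    intro a ha
    have h1 : a ∈ R0 := by
      rw [LinearMap.mem_ker, Fintype.linearCombination_apply]
      simpa [smul_eq_mul] using ha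
    rw [← hr0] at h1
    obtain ⟨l, hl⟩ := (Submodule.mem_span_range_iff_exists_fun A).1 h1
    refine ⟨l, fun i => ?_⟩
    rw [← hl]
    simp [Finset.sum_apply]
  have hr' : ∀ j, ∑ i, r j i * g i = 0 := by
    intro j
    have h1 : r j ∈ R0 := by
      rw [← hr0]
      exact Submodule.subset_span ⟨j, rfl⟩
    rw [LinearMap.mem_ker, Fintype.linearCombination_apply] at h1
    simpa [smul_eq_mul] using h1
  refine ⟨(Fin c → A) ⧸ w1N r I A, inferInstance, inferInstance, inferInstance, ?_⟩
  intro x hx S _ _ _ φ
  have hmap : I.map (algebraMap A S) = Ideal.span (Set.range fun i => algebraMap A S (g i)) := by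
    rw [hg, Ideal.map_span, ← Set.range_comp]
    rfl
  have hgm : ∀ i, algebraMap A S (g i) ∈ I.map (algebraMap A S) := fun i => by
    rw [hmap]
    exact Ideal.subset_span ⟨i, rfl⟩
  let γ : Fin b → (I.map (algebraMap A S)) := fun i => ⟨algebraMap A S (g i), hgm i⟩
  have hγ : ∀ v : I.map (algebraMap A S), ∃ s : Fin b → S, v = ∑ i, s i • γ i := by
    rintro ⟨v, hv⟩
    have hv' := hv
    rw [hmap] at hv'
    obtain ⟨s, hs⟩ := (Submodule.mem_span_range_iff_exists_fun S).1 hv'
    refine ⟨s, Subtype.ext ?_⟩
    change v = _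
    rw [← hs]
    simp [γ]
  choose y hy using fun i => Ideal.Quotient.mk_surjective (φ (γ i))
  have hrγ : ∀ j, ∑ i, algebraMap A S (r j i) • γ i = 0 := by
    intro j
    refine Subtype.ext ?_
    have := congrArg (algebraMap A S) (hr' j)
    rw [map_sum, map_zero] at this
    simpa [γ, map_mul, Algebra.smul_def] using this
  have hz : ∀ j, ∃ z w : S, w ∈ I.map (algebraMap A S) ∧
      ∑ i, algebraMap A S (r j i) * y i = algebraMap A S x * z + w := by
    intro j
    have h1 : Ideal.Quotient.mk (I.map (algebraMap A S) ⊔ Ideal.span {algebraMap A S x})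
        (∑ i, algebraMap A S (r j i) * y i) = 0 := by
      have h2 := congrArg φ (hrγ j)
      rw [map_sum, map_zero] at h2
      rw [map_sum, ← h2]
      refine Finset.sum_congr rfl fun i _ => ?_
      rw [map_smul, ← hy i, map_mul]
      rfl
    rw [Ideal.Quotient.eq_zero_iff_mem] at h1
    obtain ⟨w, hw, q, hq, h3⟩ := Submodule.mem_sup.1 h1
    obtain ⟨z, rfl⟩ := Ideal.mem_span_singleton'.1 hq
    exact ⟨z, w, hw, by rw [← h3]; ring⟩
  choose z w hw hzw using hz
  have hzN : z ∈ w1N r I S := by
    refine w1_reg r I x hx S z ⟨y, -w, fun j => neg_mem (hw j), fun j => ?_⟩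
    simp only [Pi.smul_apply, smul_eq_mul, Pi.neg_apply]
    rw [hzw j]
    ring
  obtain ⟨y', w', hw', hz'⟩ := hzN
  let G : (Fin b → S) →ₗ[S] (I.map (algebraMap A S)) := Fintype.linearCombination S γ
  let H : (Fin b → S) →ₗ[S] (S ⧸ I.map (algebraMap A S)) :=
    Fintype.linearCombination S
      (fun i => Ideal.Quotient.mk (I.map (algebraMap A S)) (y i - algebraMap A S x * y' i))
  have hGs : Function.Surjective G := by
    intro v
    obtain ⟨s, hs⟩ := hγ v
    exact ⟨s, by rw [hs]; rfl⟩
  have hGH : LinearMap.ker G ≤ LinearMap.ker H := by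
    intro s hs
    rw [LinearMap.mem_ker] at hs ⊢
    have h1 : ∑ i, s i * algebraMap A S (g i) = 0 := by
      have := congrArg Subtype.val hs
      simpa [G, Fintype.linearCombination_apply, γ] using this
    obtain ⟨l, hl⟩ := w1_rel g r hr S s h1
    have h2 : H s = Ideal.Quotient.mk (I.map (algebraMap A S))
        (∑ i, s i * (y i - algebraMap A S x * y' i)) := by
      rw [Fintype.linearCombination_apply, map_sum]
      refine Finset.sum_congr rfl fun i _ => ?_
      rw [map_mul]
      rfl
    rw [h2, Ideal.Quotient.eq_zero_iff_mem]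
    have h3 : ∑ i, s i * (y i - algebraMap A S x * y' i) =
        ∑ j, l j * (w j + algebraMap A S x * w' j) := by
      have h4 : ∀ j, w j + algebraMap A S x * w' j =
          ∑ i, algebraMap A S (r j i) * (y i - algebraMap A S x * y' i) := by
        intro j
        have h5 := hzw j
        have h6 := hz' j
        have h7 : ∑ i, algebraMap A S (r j i) * (y i - algebraMap A S x * y' i) =
            (∑ i, algebraMap A S (r j i) * y i) -
              algebraMap A S x * ∑ i, algebraMap A S (r j i) * y' i := by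
          rw [Finset.mul_sum, ← Finset.sum_sub_distrib]
          exact Finset.sum_congr rfl fun i _ => by ring
        rw [h7, h5, h6]
        ring
      calc ∑ i, s i * (y i - algebraMap A S x * y' i)
          = ∑ i, ∑ j, l j * (algebraMap A S (r j i) * (y i - algebraMap A S x * y' i)) := by
            refine Finset.sum_congr rfl fun i _ => ?_
            rw [hl i, Finset.sum_mul]
            exact Finset.sum_congr rfl fun j _ => by ring
        _ = ∑ j, l j * (w j + algebraMap A S x * w' j) := by
            rw [Finset.sum_comm]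
            refine Finset.sum_congr rfl fun j _ => ?_
            rw [h4 j, Finset.mul_sum]
    rw [h3]
    exact Ideal.sum_mem _ fun j _ => Ideal.mul_mem_left _ _
      (Ideal.add_mem _ (hw j) (Ideal.mul_mem_left _ _ (hw' j)))
  let ψ : (I.map (algebraMap A S)) →ₗ[S] (S ⧸ I.map (algebraMap A S)) :=
    ((LinearMap.ker G).liftQ H hGH).comp (G.quotKerEquivOfSurjective hGs).symm.toLinearMap
  have hψ : ∀ s, ψ (G s) = H s := by
    intro s
    have h1 : (G.quotKerEquivOfSurjective hGs).symm (G s) = Submodule.Quotient.mk s := by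
      rw [LinearEquiv.symm_apply_eq]
      rfl
    simp only [ψ, LinearMap.comp_apply, LinearEquiv.coe_coe, h1]
    rfl
  refine ⟨ψ, LinearMap.ext fun v => ?_⟩
  obtain ⟨s, rfl⟩ := hGs v
  rw [LinearMap.comp_apply, hψ s]
  have h1 : φ (G s) = ∑ i, s i • Ideal.Quotient.mk _ (y i) := by
    rw [Fintype.linearCombination_apply, map_sum]
    refine Finset.sum_congr rfl fun i _ => ?_
    rw [map_smul, ← hy i]
  rw [h1, Fintype.linearCombination_apply, map_sum]
  refine Finset.sum_congr rfl fun i _ => ?_
  rw [map_smul]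
  congr 1
  change _ = Ideal.Quotient.mk _ (y i - algebraMap A S x * y' i)
  rw [Ideal.Quotient.eq]
  have : y i - (y i - algebraMap A S x * y' i) = y' i * algebraMap A S x := by ring
  rw [this]
  exact Ideal.mem_sup_right (Ideal.mem_span_singleton'.2 ⟨y' i, rfl⟩)

end Pool.Agent.Lib.H78C
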