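import Pool.Agent.Lib.H78C.Defs
import Pool.Agent.Lib.H78C.A2
import Pool.Agent.Lib.H78C.P1
import Pool.Agent.Lib.H78C.P2
import Pool.Agent.Lib.H78C.N1
import Pool.Agent.Lib.H78C.N2
import Pool.Agent.Lib.H78C.T1
import Pool.Agent.Lib.H78C.Q1
import Pool.Agent.Lib.H78C.W1
import Pool.Agent.Lib.H78C.CF
import Pool.Agent.Lib.H78C.LS

/-!
# M2: local rings of characteristic zero flat over a finitely generated ring.
-/

set_option autoImplicit false
open CategoryTheory IsLocalRing TensorProduct
open Pool.Agent.Lib.Helper92 Pool.Agent.Lib.H44V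

namespace Pool.Agent.Lib.H78C
universe u

/-- a flat algebra over `A` in which the elements outside `q` are units is a flat `A_q`-algebra. -/
theorem M2_alg {A S : Type u} [CommRing A] [CommRing S] [Algebra A S] [Module.Flat A S]
    (q : Ideal A) [q.IsPrime] (hu : ∀ a : A, a ∉ q → IsUnit (algebraMap A S a)) :
    ∃ _ : Algebra (Localization.AtPrime q) S,
      IsScalarTower A (Localization.AtPrime q) S ∧ Module.Flat (Localization.AtPrime q) S := by
  let f : Localization.AtPrime q →+* S :=
    IsLocalization.lift (M := q.primeCompl) (g := algebraMap A S) (fun y => hu y.1 y.2)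
  let _ : Algebra (Localization.AtPrime q) S := f.toAlgebra
  have h1 : IsScalarTower A (Localization.AtPrime q) S := by
    refine IsScalarTower.of_algebraMap_eq fun a => ?_
    exact (IsLocalization.lift_eq (M := q.primeCompl) (g := algebraMap A S)
      (fun y => hu y.1 y.2) a).symm
  refine ⟨inferInstance, h1, ?_⟩
  exact (Module.flat_iff_of_isLocalization (Localization.AtPrime q) q.primeCompl S).mpr inferInstance

theorem M2_faithful {A S : Type u} [CommRing A] [CommRing S] [Algebra A S] [IsLocalRing S]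
    (P : Ideal A) [P.IsPrime] (hP : P = (maximalIdeal S).comap (algebraMap A S))
    [Algebra (Localization.AtPrime P) S] [IsScalarTower A (Localization.AtPrime P) S]
    [Module.Flat (Localization.AtPrime P) S] : Module.FaithfullyFlat (Localization.AtPrime P) S := by
  have : IsLocalHom (algebraMap (Localization.AtPrime P) S) := by
    refine ⟨fun y hy => ?_⟩
    obtain ⟨⟨a, s⟩, hs⟩ := IsLocalization.surj (M := P.primeCompl) y
    have hsu : IsUnit (algebraMap A (Localization.AtPrime P) s) :=
      IsLocalization.map_units _ s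
    have h1 : IsUnit (algebraMap A S a) := by
      rw [IsScalarTower.algebraMap_apply A (Localization.AtPrime P) S, ← hs, map_mul]
      exact hy.mul (hsu.map _)
    have h2 : a ∉ P := by
      intro ha
      rw [hP] at ha
      exact (mem_maximalIdeal _).mp ha h1
    have h3 : IsUnit (algebraMap A (Localization.AtPrime P) a) :=
      IsLocalization.map_units (M := P.primeCompl) _ ⟨a, h2⟩
    rw [← hs] at h3
    exact isUnit_of_mul_isUnit_left h3
  exact Module.FaithfullyFlat.of_flat_of_isLocalHom

theorem M2_main {A S : Type u} [CommRing A] [CommRing S] [Algebra A S]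
    [Algebra.FiniteType ℤ A] [Module.Flat A S] [IsLocalRing S]
    (hchar : ∀ n : ℕ, n ≠ 0 → IsUnit (n : S)) (I : Ideal A)
    (hI : I.map (algebraMap A S) ≠ ⊤) (n : ℕ)
    (hpd : PD S (S ⧸ I.map (algebraMap A S)) n) (r : ℕ)
    (h : NF (I.map (algebraMap A S)) r) : CI (I.map (algebraMap A S)) r := by
  have hA : IsNoetherianRing A := Algebra.FiniteType.isNoetherianRing ℤ A
  obtain ⟨P, hPdef⟩ : ∃ P : Ideal A, P = (maximalIdeal S).comap (algebraMap A S) := ⟨_, rfl⟩
  have hPp : P.IsPrime := by rw [hPdef]; infer_instance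
  have hPu : ∀ a : A, a ∉ P → IsUnit (algebraMap A S a) := by
    intro a ha
    by_contra hc
    exact ha (by rw [hPdef]; exact (mem_maximalIdeal _).mpr hc)
  have hIP : I ≤ P := by
    intro y hy
    by_contra hc
    exact hI (Ideal.eq_top_of_isUnit_mem _ (Ideal.mem_map_of_mem _ hy) (hPu y hc))
  have hP0 : ∀ n : ℕ, n ≠ 0 → (n : A) ∉ P := by
    intro n hn hc
    rw [hPdef, Ideal.mem_comap, map_natCast] at hc
    exact (mem_maximalIdeal _).mp hc (hchar n hn)
  obtain ⟨_, hst, hfl⟩ := M2_alg (S := S) P hPu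
  have hff := M2_faithful (S := S) P hPdef
  -- descent to `A_P`
  have e1 : (I.map (algebraMap A (Localization.AtPrime P))).map
      (algebraMap (Localization.AtPrime P) S) = I.map (algebraMap A S) := by
    rw [Ideal.map_map, ← IsScalarTower.algebraMap_eq]
  have hpd1 : PD (Localization.AtPrime P) (Localization.AtPrime P ⊗[A] (A ⧸ I)) n := by
    refine P1_descent (S := S) n _ ?_
    have e : S ⊗[A] (A ⧸ I) ≃ₗ[S]
        S ⊗[Localization.AtPrime P] (Localization.AtPrime P ⊗[A] (A ⧸ I)) :=
      (AlgebraTensorModule.cancelBaseChange A (Localization.AtPrime P) S S (A ⧸ I)).symm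
    have h1 : PD S (S ⊗[A] (A ⧸ I)) n := (A2_pd I n).mpr hpd
    exact hasProjectiveDimensionLT_of_iso e.toModuleIso n
  have hn1 : NF (I.map (algebraMap A (Localization.AtPrime P))) r := by
    refine N1_descent (S := S) _ ?_ r ?_
    · rw [e1]; exact hI
    · rw [e1]; exact h
  -- spreading out
  obtain ⟨g1, hg1, hq1⟩ := P2_spread P n (A ⧸ I) hpd1
  obtain ⟨g2, hg2, hq2⟩ := N2_spread P I r hn1
  obtain ⟨N1, hN1, hr1⟩ := T1_regular (A := A) A
  obtain ⟨N2, hN2, hr2⟩ := T1_regular (A := A) (A ⧸ I)
  obtain ⟨W, _, _, _, hW⟩ := W1_lift I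
  obtain ⟨N3, hN3, hr3⟩ := T1_regular (A := A) W
  have hg : g1 * g2 ∉ P := fun hc => (hPp.mem_or_mem hc).elim hg1 hg2
  obtain ⟨q, p, hqp, hPq, hgq, hp, hpq, hpN⟩ := Q1_exists P hP0 (g1 * g2) hg (N1 * N2 * N3)
    (Nat.mul_ne_zero (Nat.mul_ne_zero hN1 hN2) hN3)
  have hp1 : p.Coprime N1 := Nat.Coprime.coprime_mul_right_right (Nat.Coprime.coprime_mul_right_right hpN)
  have hp2 : p.Coprime N2 := Nat.Coprime.coprime_mul_left_right (Nat.Coprime.coprime_mul_right_right hpN)
  have hp3 : p.Coprime N3 := Nat.Coprime.coprime_mul_left_right hpN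
  have hgq1 : g1 ∉ q := fun hc => hgq (q.mul_mem_right _ hc)
  have hgq2 : g2 ∉ q := fun hc => hgq (q.mul_mem_left _ hc)
  have : Fact p.Prime := ⟨hp⟩
  have hcast : algebraMap A (Localization.AtPrime q) (p : A) = (p : Localization.AtPrime q) :=
    map_natCast _ _
  have : IsNoetherianRing (Localization.AtPrime q) :=
    IsLocalization.isNoetherianRing q.primeCompl _ hA
  -- the local step at `q`
  have hIq : I.map (algebraMap A (Localization.AtPrime q)) ≤ maximalIdeal _ := by
    rw [Ideal.map_le_iff_le_comap, ← Ideal.under_def, Localization.AtPrime.under_maximalIdeal]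
    exact hIP.trans hPq
  have hci : CI (I.map (algebraMap A (Localization.AtPrime q))) r := by
    refine LS_main p ?_ ?_ _ ?_ ?_ ?_ n ?_ r ?_
    · rw [← hcast]
      have : (p : A) ∈ (maximalIdeal (Localization.AtPrime q)).comap
          (algebraMap A (Localization.AtPrime q)) := by
        rw [← Ideal.under_def, Localization.AtPrime.under_maximalIdeal]; exact hpq
      exact this
    · rw [← hcast]
      exact A2_reg' (p : A) (hr1 p hp1)
    · intro hc
      rw [hc] at hIq
      exact (maximalIdeal.isMaximal _).ne_top (top_le_iff.mp hIq)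
    · rw [← hcast]
      exact A2_reg I (p : A) (hr2 p hp2)
    · rw [← hcast]
      exact hW (p : A) (hr3 p hp3) _
    · exact (A2_pd I n).mp (hq1 q hgq1)
    · exact hq2 q hgq2
  -- back to `S`
  obtain ⟨_, hst', hfl'⟩ := M2_alg (S := S) q (fun a ha => hPu a (fun hc => ha (hPq hc)))
  have h3 := CF_flat (S := S) _ r hci
  rwa [Ideal.map_map, ← IsScalarTower.algebraMap_eq] at h3

end Pool.Agent.Lib.H78C
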