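import Pool.Agent.Lib.H44V.Fin
import Pool.Agent.Lib.H78C.EF
import Pool.Agent.Lib.H78C.M2

/-!
# Fin: the final theorem
-/

set_option autoImplicit false
open CategoryTheory IsLocalRing TensorProduct
open Pool.Agent.Lib.Helper92 Pool.Agent.Lib.H44V

namespace Pool.Agent.Lib.H78C
universe u

/-- characteristic zero, essentially of finite type over a field. -/
theorem Fin_charZero {k S : Type u} [Field k] [CharZero k] [CommRing S] [Algebra k S]
    [Algebra.EssFiniteType k S] [IsLocalRing S] (I : Ideal S) (hI : I ≠ ⊤)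
    (hpd : ∃ n : ℕ, HasProjectiveDimensionLT (ModuleCat.of S I) n)
    (hN : Module.Free (S ⧸ I) (I.Cotangent →ₗ[S ⧸ I] (S ⧸ I)) ∨
      ((∀ rs : List (S ⧸ I), RingTheory.Sequence.IsRegular (S ⧸ I) rs → rs.length ≤ 2) ∧
      ∃ n : ℕ, HasProjectiveDimensionLT
        (ModuleCat.of (S ⧸ I) (I.Cotangent →ₗ[S ⧸ I] (S ⧸ I))) n)) :
    ∃ rs : List S, Ideal.span {s : S | s ∈ rs} = I ∧ RingTheory.Sequence.IsRegular S rs := by
  have : IsNoetherianRing S := Algebra.EssFiniteType.isNoetherianRing k S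
  have hfree : Module.Free (S ⧸ I) (I.Cotangent →ₗ[S ⧸ I] (S ⧸ I)) := by
    rcases hN with h | ⟨hd, h⟩
    · exact h
    · exact Fin_free hI hd h
  obtain ⟨r, h, hb⟩ := exists_nbasis hI
  obtain ⟨n, hn⟩ := Fin_pd hpd
  obtain ⟨A, _, _, hA, hflat, I₀, rfl⟩ := EF_exists (k := k) I
  have hchar : ∀ n : ℕ, n ≠ 0 → IsUnit (n : S) := by
    intro n hn
    have h1 : IsUnit ((n : k)) := (Nat.cast_ne_zero.mpr hn).isUnit
    have h2 := h1.map (algebraMap k S)
    simpa using h2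
  exact Fin_list hI (M2_main hchar I₀ hI n hn r ⟨h, hb⟩)

end Pool.Agent.Lib.H78C
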